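import Pool.Agent.Lib.H18P.P4

/-!
# Project H18P (MP_443e5f_co): Q1 under a quantitative form of Goldbach's conjecture
-/

open Finset Pool.Agent.Lib.H18GB Pool.Agent.Lib.GoldbachGraph Pool.Agent.Lib.H18E Pool.Agent.Goldbach

namespace Pool.Agent.Lib.H18P

/-- Every even `u ≥ 8` is the sum of two different primes, and every large even `u` in at least
`u exp (-(log u)^b)` ways. -/
def QuantGoldbach (b : ℝ) : Prop :=
  (∀ u : ℕ, Even u → 8 ≤ u → ∃ p q : ℕ, p.Prime ∧ q.Prime ∧ p ≠ q ∧ p + q = u) ∧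
  ∃ U : ℕ, ∀ u : ℕ, U ≤ u → Even u → (u : ℝ) * Real.exp (-(Real.log u) ^ b) ≤ reps u

theorem edist_three {V : Type*} (G : SimpleGraph V) (a b c d : V) (i j k : ℕ∞) (h1 : G.edist a b ≤ i)
    (h2 : G.edist b c ≤ j) (h3 : G.edist c d ≤ k) : G.edist a d ≤ i + j + k :=
  calc G.edist a d ≤ G.edist a c + G.edist c d := SimpleGraph.edist_triangle
    _ ≤ (G.edist a b + G.edist b c) + G.edist c d := add_le_add_left SimpleGraph.edist_triangle _
    _ ≤ i + j + k := add_le_add (add_le_add h1 h2) h3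

theorem q1_aux (hG : ∀ u : ℕ, Even u → 8 ≤ u → ∃ p q : ℕ, p.Prime ∧ q.Prime ∧ p ≠ q ∧ p + q = u)
    {V S : Set ℕ} {n : ℕ} (hV : ∀ a ∈ V, Even a ∧ a ≤ 2 * n) (hV2 : ∀ x ∈ Finset.Icc 1 n, 2 * x ∈ V)
    (hS : ∀ m, m.Prime → Odd m → m < 2 * n → m ∈ S) (U : ℕ) (s : ℕ) (hs : s ∈ V) (hs0 : 0 < s)
    (hsU : s ≤ 2 * U)
    (h246 : ∀ w w' : ℕ, ∀ hw : w ∈ V, ∀ hw' : w' ∈ V, (w = 2 ∨ w = 4 ∨ w = 6) → (w' = 2 ∨ w' = 4 ∨ w' = 6) →
      (halfGraph V S).edist ⟨w, hw⟩ ⟨w', hw'⟩ ≤ 6)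
    (h0 : ∀ hu : 0 ∈ V, ∃ w, ∃ hw : w ∈ V, (w = 2 ∨ w = 4 ∨ w = 6) ∧
      (halfGraph V S).edist ⟨0, hu⟩ ⟨w, hw⟩ ≤ 1)
    (hbig : ∀ u : ℕ, ∀ hu : u ∈ V, U ≤ u → (halfGraph V S).edist ⟨u, hu⟩ ⟨s, hs⟩ ≤ 31) :
    ∀ u v : V, (halfGraph V S).edist u v ≤ ((2 * (3 * U + 40) : ℕ) : ℕ∞) := by
  obtain ⟨w', hw', hw1', hw2'⟩ := descent hG hV hV2 hS s hs hs0
  have key : ∀ u : V, (halfGraph V S).edist u ⟨s, hs⟩ ≤ ((3 * U + 40 : ℕ) : ℕ∞) := by
    rintro ⟨u, hu⟩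
    rcases Nat.eq_zero_or_pos u with h | h
    · subst h
      obtain ⟨w, hw, hw1, hw2⟩ := h0 hu
      have h1 := h246 w w' hw hw' hw1 hw1'
      rw [SimpleGraph.edist_comm] at hw2'
      refine (edist_three _ _ _ _ _ _ _ _ hw2 h1 hw2').trans ?_
      have : 1 + 6 + s ≤ 3 * U + 40 := by omega
      exact_mod_cast this
    · by_cases hU : U ≤ u
      · refine (hbig u hu hU).trans ?_
        have : 31 ≤ 3 * U + 40 := by omega
        exact_mod_cast this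
      · obtain ⟨w, hw, hw1, hw2⟩ := descent hG hV hV2 hS u hu h
        have h1 := h246 w w' hw hw' hw1 hw1'
        rw [SimpleGraph.edist_comm] at hw2'
        refine (edist_three _ _ _ _ _ _ _ _ hw2 h1 hw2').trans ?_
        have : u + 6 + s ≤ 3 * U + 40 := by omega
        exact_mod_cast this
  intro u v
  have h1 := key u
  have h2 := key v
  rw [SimpleGraph.edist_comm] at h2
  calc (halfGraph V S).edist u v ≤ (halfGraph V S).edist u ⟨s, hs⟩ + (halfGraph V S).edist ⟨s, hs⟩ v :=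
        SimpleGraph.edist_triangle
    _ ≤ ((3 * U + 40 : ℕ) : ℕ∞) + ((3 * U + 40 : ℕ) : ℕ∞) := add_le_add h1 h2
    _ = ((2 * (3 * U + 40) : ℕ) : ℕ∞) := by push_cast; ring

/-- an edge between small vertices -/
theorem edge {V S : Set ℕ} (x y p q : ℕ) (hx : 2 * x ∈ V) (hy : 2 * y ∈ V) (hxy : y < x) (hp : x + y = p)
    (hq : x - y = q) (hpS : p ∈ S) (hqS : q ∈ S) :
    (halfGraph V S).edist ⟨2 * x, hx⟩ ⟨2 * y, hy⟩ ≤ 1 := by
  have hadj : (halfGraph V S).Adj ⟨2 * x, hx⟩ ⟨2 * y, hy⟩ := by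
    rw [halfGraph_adj_iff (x := x) (y := y) rfl rfl]
    have : ((x : ℤ) - y).natAbs = q := by omega
    rw [this, hp]
    exact ⟨by omega, hpS, hqS⟩
  refine (SimpleGraph.edist_le (.cons hadj .nil)).trans ?_
  norm_num

/-- distances between `2`, `4`, `6` in the near Goldbach graphs -/
theorem small_near {V S : Set ℕ} (h1 : 1 ∈ S) (h3 : 3 ∈ S) (h5 : 5 ∈ S) (a2 : 2 ∈ V) (a4 : 4 ∈ V)
    (a6 : 6 ∈ V) : ∀ w w' : ℕ, ∀ hw : w ∈ V, ∀ hw' : w' ∈ V, (w = 2 ∨ w = 4 ∨ w = 6) →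
      (w' = 2 ∨ w' = 4 ∨ w' = 6) → (halfGraph V S).edist ⟨w, hw⟩ ⟨w', hw'⟩ ≤ 6 := by
  have e42 : (halfGraph V S).edist ⟨4, a4⟩ ⟨2, a2⟩ ≤ 1 := edge 2 1 3 1 a4 a2 (by norm_num) rfl rfl h3 h1
  have e64 : (halfGraph V S).edist ⟨6, a6⟩ ⟨4, a4⟩ ≤ 1 := edge 3 2 5 1 a6 a4 (by norm_num) rfl rfl h5 h1
  have key : ∀ w : ℕ, ∀ hw : w ∈ V, (w = 2 ∨ w = 4 ∨ w = 6) → (halfGraph V S).edist ⟨w, hw⟩ ⟨4, a4⟩ ≤ 3 := by
    rintro w hw (h | h | h)
    · subst h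
      rw [SimpleGraph.edist_comm]
      exact e42.trans (by norm_num)
    · subst h
      rw [SimpleGraph.edist_self]
      exact zero_le
    · subst h
      exact e64.trans (by norm_num)
  intro w w' hw hw' h h'
  have k1 := key w hw h
  have k2 := key w' hw' h'
  rw [SimpleGraph.edist_comm] at k2
  calc (halfGraph V S).edist ⟨w, hw⟩ ⟨w', hw'⟩ ≤ (halfGraph V S).edist ⟨w, hw⟩ ⟨4, a4⟩ +
        (halfGraph V S).edist ⟨4, a4⟩ ⟨w', hw'⟩ := SimpleGraph.edist_triangle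
    _ ≤ 3 + 3 := add_le_add k1 k2
    _ = 6 := by norm_num

/-- distances between `2`, `4`, `6` in the Goldbach graphs -/
theorem small_gold {V S : Set ℕ} (h3 : 3 ∈ S) (h5 : 5 ∈ S) (h7 : 7 ∈ S) (h11 : 11 ∈ S) (a0 : 0 ∈ V)
    (a2 : 2 ∈ V) (a4 : 4 ∈ V) (a6 : 6 ∈ V) (a8 : 8 ∈ V) (a10 : 10 ∈ V) (a14 : 14 ∈ V) :
    (halfGraph V S).edist ⟨0, a0⟩ ⟨6, a6⟩ ≤ 1 ∧
    ∀ w w' : ℕ, ∀ hw : w ∈ V, ∀ hw' : w' ∈ V, (w = 2 ∨ w = 4 ∨ w = 6) →
      (w' = 2 ∨ w' = 4 ∨ w' = 6) → (halfGraph V S).edist ⟨w, hw⟩ ⟨w', hw'⟩ ≤ 6 := by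
  have e82 : (halfGraph V S).edist ⟨8, a8⟩ ⟨2, a2⟩ ≤ 1 := edge 4 1 5 3 a8 a2 (by norm_num) rfl rfl h5 h3
  have e148 : (halfGraph V S).edist ⟨14, a14⟩ ⟨8, a8⟩ ≤ 1 := edge 7 4 11 3 a14 a8 (by norm_num) rfl rfl h11 h3
  have e140 : (halfGraph V S).edist ⟨14, a14⟩ ⟨0, a0⟩ ≤ 1 := edge 7 0 7 7 a14 a0 (by norm_num) rfl rfl h7 h7
  have e104 : (halfGraph V S).edist ⟨10, a10⟩ ⟨4, a4⟩ ≤ 1 := edge 5 2 7 3 a10 a4 (by norm_num) rfl rfl h7 h3
  have e100 : (halfGraph V S).edist ⟨10, a10⟩ ⟨0, a0⟩ ≤ 1 := edge 5 0 5 5 a10 a0 (by norm_num) rfl rfl h5 h5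
  have e60 : (halfGraph V S).edist ⟨6, a6⟩ ⟨0, a0⟩ ≤ 1 := edge 3 0 3 3 a6 a0 (by norm_num) rfl rfl h3 h3
  refine ⟨by rw [SimpleGraph.edist_comm]; exact e60, ?_⟩
  have key : ∀ w : ℕ, ∀ hw : w ∈ V, (w = 2 ∨ w = 4 ∨ w = 6) → (halfGraph V S).edist ⟨w, hw⟩ ⟨0, a0⟩ ≤ 3 := by
    rintro w hw (h | h | h)
    · subst h
      rw [SimpleGraph.edist_comm] at e82 e148
      have := edist_three _ _ _ _ _ _ _ _ e82 e148 e140
      refine this.trans ?_
      norm_num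
    · subst h
      rw [SimpleGraph.edist_comm] at e104
      have h1 : (halfGraph V S).edist ⟨4, a4⟩ ⟨0, a0⟩ ≤ 1 + 1 :=
        SimpleGraph.edist_triangle.trans (add_le_add e104 e100)
      refine h1.trans ?_
      norm_num
    · subst h
      exact e60.trans (by norm_num)
  intro w w' hw hw' h h'
  have k1 := key w hw h
  have k2 := key w' hw' h'
  rw [SimpleGraph.edist_comm] at k2
  calc (halfGraph V S).edist ⟨w, hw⟩ ⟨w', hw'⟩ ≤ (halfGraph V S).edist ⟨w, hw⟩ ⟨0, a0⟩ +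
        (halfGraph V S).edist ⟨0, a0⟩ ⟨w', hw'⟩ := SimpleGraph.edist_triangle
    _ ≤ 3 + 3 := add_le_add k1 k2
    _ = 6 := by norm_num

/-- **All for the two families.** -/
theorem final (a b : ℝ) (ha : 0 < a) (hab : a < b) (hb : b < 1 / 2) :
    ∃ (E : Set ℕ) (n0 x0 : ℕ),
      (∀ x : ℕ, x0 ≤ x → ((E ∩ Set.Icc 0 x).ncard : ℝ) ≤ x * Real.exp (-(Real.log x) ^ a)) ∧
      (∀ u : ℕ, Even u → u ∉ E → n0 ≤ u ∧ (u : ℝ) * Real.exp (-(Real.log u) ^ b) ≤ reps u) ∧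
      (∀ n : ℕ, n0 ≤ n → (∃ K, Core goldbachVertices goldbachGraph b n0 n K ∧
          ∀ u : goldbachVertices n, (u : ℕ) = 0 ∨ (∃ p : ℕ, p.Prime ∧ Odd p ∧ (u : ℕ) = 2 * p) →
            ∃ z ∈ K, (goldbachGraph n).edist u z ≤ 2) ∧
        ∃ K, Core evenVertices nearGoldbachGraph b n0 n K) ∧
      (∀ n : ℕ, n0 ≤ n →
        (∀ u v : goldbachVertices n, Rich goldbachVertices goldbachGraph b n0 n u →
          Rich goldbachVertices goldbachGraph b n0 n v → (goldbachGraph n).edist u v ≤ 31) ∧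
        (∀ u v : evenVertices n, Rich evenVertices nearGoldbachGraph b n0 n u →
          Rich evenVertices nearGoldbachGraph b n0 n v → (nearGoldbachGraph n).edist u v ≤ 31)) ∧
      (QuantGoldbach b → ∃ C N : ℕ, ∀ n : ℕ, N ≤ n →
        (∀ u v : goldbachVertices n, (goldbachGraph n).edist u v ≤ C) ∧
        (∀ u v : evenVertices n, (nearGoldbachGraph n).edist u v ≤ C)) := by
  classical
  obtain ⟨n0, hn0, hfam⟩ := core_family b ((b + 1 / 2) / 2) (ha.trans hab) (by linarith) (by linarith)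
  obtain ⟨E, x0, hE1, hE2⟩ := fixed_set a b ha hab hb n0
  have hg := hfam goldbachVertices (fun n => {p | p.Prime ∧ Odd p ∧ p < 2 * n})
    (fun n a ha => ha)
    (fun n x hx => by
      rw [Finset.mem_Icc] at hx
      exact ⟨even_two_mul x, by omega⟩)
    (fun n m h1 h2 h3 => ⟨h1, h2, h3⟩)
    (fun n m hm => Or.inr ⟨hm.1, hm.2.1⟩)
    (fun n _ m _ => ⟨Even.zero, Nat.zero_le _⟩) n0 le_rfl
  have hv := hfam evenVertices (fun n => {1} ∪ {p | p.Prime ∧ Odd p ∧ p < 2 * n})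
    (fun n a ha => ⟨ha.1, ha.2.2⟩)
    (fun n x hx => by
      rw [Finset.mem_Icc] at hx
      exact ⟨even_two_mul x, by omega, by omega⟩)
    (fun n m h1 h2 h3 => Or.inr ⟨h1, h2, h3⟩)
    (fun n m hm => by
      rcases hm with hm | hm
      · exact Or.inl hm
      · exact Or.inr ⟨hm.1, hm.2.1⟩)
    (fun n h => absurd h.2.1 (by norm_num)) n0 le_rfl
  have hpair : ∀ n : ℕ, n0 ≤ n →
        (∀ u v : goldbachVertices n, Rich goldbachVertices goldbachGraph b n0 n u →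
          Rich goldbachVertices goldbachGraph b n0 n v → (goldbachGraph n).edist u v ≤ 31) ∧
        (∀ u v : evenVertices n, Rich evenVertices nearGoldbachGraph b n0 n u →
          Rich evenVertices nearGoldbachGraph b n0 n v → (nearGoldbachGraph n).edist u v ≤ 31) := by
    intro n hn
    obtain ⟨K, hK, -⟩ := hg n hn
    obtain ⟨K', hK', -⟩ := hv n hn
    exact ⟨fun u v hu hv => hK.pair (hK.rich u hu) (hK.rich v hv),
      fun u v hu hv => hK'.pair (hK'.rich u hu) (hK'.rich v hv)⟩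
  refine ⟨E, n0, x0, hE1, hE2, fun n hn => ⟨?_, ?_⟩, hpair, ?_⟩
  · obtain ⟨K, hK, hK0⟩ := hg n hn
    exact ⟨K, hK, hK0 ⟨Even.zero, Nat.zero_le _⟩⟩
  · obtain ⟨K, hK, -⟩ := hv n hn
    exact ⟨K, hK⟩
  · rintro ⟨hG, U0, hU0⟩
    set U := max U0 n0 + 8 with hU
    refine ⟨2 * (3 * U + 40), 2 * U + 20, fun n hn => ⟨?_, ?_⟩⟩
    · have hV : ∀ a ∈ goldbachVertices n, Even a ∧ a ≤ 2 * n := fun a ha => ha
      have hV2 : ∀ x ∈ Finset.Icc 1 n, 2 * x ∈ goldbachVertices n := fun x hx => by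
        rw [Finset.mem_Icc] at hx
        exact ⟨even_two_mul x, by omega⟩
      have hS : ∀ m, m.Prime → Odd m → m < 2 * n → m ∈ {p | p.Prime ∧ Odd p ∧ p < 2 * n} :=
        fun m h1 h2 h3 => ⟨h1, h2, h3⟩
      have hmem : ∀ k, 2 * k ≤ 2 * n → 2 * k ∈ goldbachVertices n := fun k hk => ⟨even_two_mul k, hk⟩
      have hs : 2 * U ∈ goldbachVertices n := hmem U (by omega)
      obtain ⟨e0, e246⟩ := small_gold (V := goldbachVertices n) (S := {p | p.Prime ∧ Odd p ∧ p < 2 * n})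
        (hS 3 (by norm_num) (by decide) (by omega)) (hS 5 (by norm_num) (by decide) (by omega))
        (hS 7 (by norm_num) (by decide) (by omega)) (hS 11 (by norm_num) (by decide) (by omega))
        (hmem 0 (by omega)) (hmem 1 (by omega)) (hmem 2 (by omega)) (hmem 3 (by omega)) (hmem 4 (by omega))
        (hmem 5 (by omega)) (hmem 7 (by omega))
      refine q1_aux hG hV hV2 hS U (2 * U) hs (by omega) le_rfl e246
        (fun hu => ⟨6, hmem 3 (by omega), by omega, e0⟩) ?_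
      intro u hu hUu
      refine (hpair n (by omega)).1 ⟨u, hu⟩ ⟨2 * U, hs⟩ (Or.inr ⟨by simp only; omega, ?_⟩)
        (Or.inr ⟨by simp only; omega, ?_⟩)
      · exact hU0 u (by omega) hu.1
      · exact hU0 (2 * U) (by omega) (even_two_mul U)
    · have hV : ∀ a ∈ evenVertices n, Even a ∧ a ≤ 2 * n := fun a ha => ⟨ha.1, ha.2.2⟩
      have hV2 : ∀ x ∈ Finset.Icc 1 n, 2 * x ∈ evenVertices n := fun x hx => by
        rw [Finset.mem_Icc] at hx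
        exact ⟨even_two_mul x, by omega, by omega⟩
      have hS : ∀ m, m.Prime → Odd m → m < 2 * n → m ∈ ({1} ∪ {p | p.Prime ∧ Odd p ∧ p < 2 * n} : Set ℕ) :=
        fun m h1 h2 h3 => Or.inr ⟨h1, h2, h3⟩
      have hmem : ∀ k, 1 ≤ k → 2 * k ≤ 2 * n → 2 * k ∈ evenVertices n :=
        fun k hk1 hk => ⟨even_two_mul k, by omega, hk⟩
      have hs : 2 * U ∈ evenVertices n := hmem U (by omega) (by omega)
      have e246 := small_near (V := evenVertices n) (S := ({1} ∪ {p | p.Prime ∧ Odd p ∧ p < 2 * n} : Set ℕ))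
        (Or.inl rfl)
        (hS 3 (by norm_num) (by decide) (by omega)) (hS 5 (by norm_num) (by decide) (by omega))
        (hmem 1 (by omega) (by omega)) (hmem 2 (by omega) (by omega)) (hmem 3 (by omega) (by omega))
      refine q1_aux hG hV hV2 hS U (2 * U) hs (by omega) le_rfl e246
        (fun hu => absurd hu.2.1 (by norm_num)) ?_
      intro u hu hUu
      refine (hpair n (by omega)).2 ⟨u, hu⟩ ⟨2 * U, hs⟩ (Or.inr ⟨by simp only; omega, ?_⟩)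
        (Or.inr ⟨by simp only; omega, ?_⟩)
      · exact hU0 u (by omega) hu.1
      · exact hU0 (2 * U) (by omega) (even_two_mul U)

end Pool.Agent.Lib.H18P
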