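import Pool.Agent.Lib.H57T.Main
import Pool.Agent.Lib.GoldbachGraph.Proportion

/-!
# Project H18P (MP_443e5f_co): the jump between scales

For all large `n` and `m0 ≤ m ≤ n / 1000` a positive proportion of the `X ≤ m` have at least
`n / (log n) ^ B` neighbours in `[1, n]` (halved Goldbach graph: `X ~ Y` iff `X + Y` and `|X - Y|` are odd primes).
This is a consequence of the uniform Maynard-Tao theorem `H57T.main`: every `k`-tuple of multiples of
`2 k!` contains two elements whose difference `2 X` is of this kind.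
-/

open Finset Pool.Agent.Lib.GoldbachGraph

namespace Pool.Agent.Lib.H18P

/-- A greedy choice of `k` numbers without differences in `D`. -/
theorem greedy (D : Finset ℕ) (J : ℕ) : ∀ k : ℕ, k * (2 * D.card + 1) ≤ J + 1 →
    ∃ S : Finset ℕ, S ⊆ range (J + 1) ∧ S.card = k ∧ ∀ i ∈ S, ∀ j ∈ S, i < j → j - i ∉ D := by
  classical
  intro k
  induction k with
  | zero => exact fun _ => ⟨∅, by simp, by simp, by simp⟩
  | succ k ih =>
    intro h
    obtain ⟨S, hS1, hS2, hS3⟩ := ih (by nlinarith)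
    set F : Finset ℕ := S ∪ (S.biUnion fun i => D.image fun d => i + d) ∪ (S.biUnion fun i => D.image fun d => i - d)
      with hF
    have hFc : F.card ≤ k * (2 * D.card + 1) := by
      have h1 : (S.biUnion fun i => D.image fun d => i + d).card ≤ k * D.card := by
        rw [← hS2]
        exact card_biUnion_le_card_mul _ _ _ fun i _ => card_image_le
      have h2 : (S.biUnion fun i => D.image fun d => i - d).card ≤ k * D.card := by
        rw [← hS2]
        exact card_biUnion_le_card_mul _ _ _ fun i _ => card_image_le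
      have h3 := card_union_le (S ∪ (S.biUnion fun i => D.image fun d => i + d)) (S.biUnion fun i => D.image fun d => i - d)
      have h4 := card_union_le S (S.biUnion fun i => D.image fun d => i + d)
      rw [hF]
      nlinarith
    have hlt : F.card < (range (J + 1)).card := by
      rw [card_range]
      nlinarith
    obtain ⟨j, hj1, hj2⟩ := exists_mem_notMem_of_card_lt_card hlt
    simp only [hF, mem_union, mem_biUnion, mem_image, not_or, not_exists, not_and] at hj2
    obtain ⟨⟨hj3, hj4⟩, hj5⟩ := hj2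
    refine ⟨insert j S, ?_, ?_, ?_⟩
    · intro i hi
      rw [mem_insert] at hi
      rcases hi with rfl | hi
      · exact hj1
      · exact hS1 hi
    · rw [card_insert_of_notMem hj3, hS2]
    · intro a ha b hb hab
      rw [mem_insert] at ha hb
      rcases ha with rfl | ha
      · rcases hb with rfl | hb
        · exact absurd hab (lt_irrefl _)
        · intro hd
          exact hj5 b hb _ hd (by omega)
      · rcases hb with rfl | hb
        · intro hd
          exact hj4 a ha _ hd (by omega)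
        · exact hS3 a ha b hb hab

/-- A `k`-tuple of multiples of `2 k!` is admissible. -/
theorem adm (k : ℕ) (A : Finset ℕ) (hk : A.card = k) (hA : ∀ b ∈ A, 2 * k.factorial ∣ b) (p : ℕ) (hp : p.Prime) :
    ∃ r : ZMod p, ∀ b ∈ A, (b : ZMod p) ≠ r := by
  classical
  haveI : Fact p.Prime := ⟨hp⟩
  by_cases h : p ≤ k
  · refine ⟨1, fun b hb h1 => ?_⟩
    have h2 : p ∣ b := ((hp.dvd_factorial.2 h).trans (dvd_mul_left _ _)).trans (hA b hb)
    rw [(ZMod.natCast_eq_zero_iff _ _).2 h2] at h1
    exact zero_ne_one h1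
  · by_contra hc
    push Not at hc
    have h1 : (univ : Finset (ZMod p)) ⊆ A.image (fun b : ℕ => (b : ZMod p)) := by
      intro r _
      obtain ⟨b, hb, hr⟩ := hc r
      exact mem_image.2 ⟨b, hb, hr⟩
    have h2 := card_le_card h1
    rw [card_univ, ZMod.card] at h2
    have h3 : (A.image (fun b : ℕ => (b : ZMod p))).card ≤ A.card := card_image_le
    omega

/-- Prime pairs give neighbours. -/
theorem pair_deg (n m b b' N : ℕ) (hb : b ≤ 2 * m) (hb' : b' ≤ 2 * m) (hbb : b < b') (he : Even (b' - b))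
    (hN : 2 * N ≤ n) (hm : 6 * m ≤ n) :
    ((Icc 1 N).filter (fun t => (t + b).Prime ∧ (t + b').Prime)).card ≤ hdeg n ((b' - b) / 2) + 2 := by
  classical
  obtain ⟨X, hX⟩ := he
  have hX' : (b' - b) / 2 = X := by omega
  rw [hX']
  have h1 : ((Icc 1 N).filter (fun t => (t + b).Prime ∧ (t + b').Prime)).card ≤
      (((Icc 3 N).filter (fun t => (t + b).Prime ∧ (t + b').Prime)) ∪ {1, 2}).card := by
    apply card_le_card
    intro t ht
    rw [mem_filter, mem_Icc] at ht
    rw [mem_union, mem_filter, mem_Icc, mem_insert, mem_singleton]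
    by_cases h : t ≤ 2
    · right
      omega
    · left
      exact ⟨⟨by omega, ht.1.2⟩, ht.2⟩
  refine h1.trans ((card_union_le _ _).trans (Nat.add_le_add ?_ Finset.card_le_two))
  unfold hdeg
  refine card_le_card_of_injOn (fun t => X + (t + b)) ?_ ?_
  · intro t ht
    rw [mem_coe, mem_filter, mem_Icc] at ht
    obtain ⟨⟨ht1, ht2⟩, ht3, ht4⟩ := ht
    have hXm : X + X ≤ 2 * m := by omega
    have hmem : X + (t + b) ∈ Icc 1 n := by
      rw [mem_Icc]
      constructor <;> omega
    show X + (t + b) ∈ ((Icc 1 n).filter _ : Finset ℕ)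
    rw [mem_filter]
    refine ⟨hmem, ?_, ?_, ?_, ?_⟩
    · have : X + (X + (t + b)) = t + b' := by omega
      rw [this]
      exact ht4
    · have : X + (X + (t + b)) = t + b' := by omega
      rw [this]
      exact ht4.odd_of_ne_two (by omega)
    · have : Nat.dist X (X + (t + b)) = t + b := by unfold Nat.dist; omega
      rw [this]
      exact ht3
    · have : Nat.dist X (X + (t + b)) = t + b := by unfold Nat.dist; omega
      rw [this]
      exact ht3.odd_of_ne_two (by omega)
  · intro t _ t' _ h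
    simp only at h
    omega

/-- One of the differences of a tuple is good. -/
theorem tuple (k N : ℕ) (A : Finset ℕ) (hAk : A.card ≤ k) (T : Finset ℕ)
    (hT : ∀ t ∈ T, t ∈ Icc 1 N ∧ 2 ≤ (A.filter (fun b => (t + b).Prime)).card) :
    ∃ b b', (T.card = 0 ∨ (b ∈ A ∧ b' ∈ A ∧ b < b')) ∧
      T.card ≤ k ^ 2 * ((Icc 1 N).filter (fun t => (t + b).Prime ∧ (t + b').Prime)).card := by
  classical
  set PP := (A ×ˢ A).filter (fun q => q.1 < q.2) with hPP
  have h1 : T ⊆ PP.biUnion (fun q => (Icc 1 N).filter (fun t => (t + q.1).Prime ∧ (t + q.2).Prime)) := by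
    intro t ht
    obtain ⟨h2, h3⟩ := hT t ht
    obtain ⟨x, hx, y, hy, hxy⟩ := one_lt_card.1 (show 1 < _ by omega : 1 < (A.filter (fun b => (t + b).Prime)).card)
    rw [mem_filter] at hx hy
    rw [mem_biUnion]
    rcases lt_or_gt_of_ne hxy with h | h
    · exact ⟨(x, y), by rw [hPP, mem_filter, mem_product]; exact ⟨⟨hx.1, hy.1⟩, h⟩,
        by rw [mem_filter]; exact ⟨h2, hx.2, hy.2⟩⟩
    · exact ⟨(y, x), by rw [hPP, mem_filter, mem_product]; exact ⟨⟨hy.1, hx.1⟩, h⟩,
        by rw [mem_filter]; exact ⟨h2, hy.2, hx.2⟩⟩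
  rcases PP.eq_empty_or_nonempty with he | hne
  · rw [he, biUnion_empty, subset_empty] at h1
    exact ⟨0, 0, Or.inl (by rw [h1, card_empty]), by rw [h1]; simp⟩
  · obtain ⟨q, hq, hmax⟩ := exists_max_image PP
      (fun q => ((Icc 1 N).filter (fun t => (t + q.1).Prime ∧ (t + q.2).Prime)).card) hne
    have hq' := hq
    rw [hPP, mem_filter, mem_product] at hq'
    refine ⟨q.1, q.2, Or.inr ⟨hq'.1.1, hq'.1.2, hq'.2⟩, ?_⟩
    have h2 := (card_le_card h1).trans (card_biUnion_le_card_mul _ _ _ hmax)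
    refine h2.trans (Nat.mul_le_mul_right _ ?_)
    calc PP.card ≤ (A ×ˢ A).card := card_filter_le _ _
      _ = A.card * A.card := card_product _ _
      _ ≤ k * k := Nat.mul_le_mul hAk hAk
      _ = k ^ 2 := by ring

/-- **The jump.** -/
theorem jump : ∃ c : ℝ, 0 < c ∧ ∃ B m0 n0 : ℕ, ∀ n : ℕ, n0 ≤ n → ∀ m : ℕ, m0 ≤ m → 1000 * m ≤ n →
    c * m ≤ (((Icc 1 m).filter (fun X => (n : ℝ) / (Real.log n) ^ B ≤ hdeg n X)).card : ℝ) := by
  classical
  obtain ⟨c1, hc1, k0, hmain⟩ := Pool.Agent.Lib.H57T.main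
  set k : ℕ := max (max k0 2) ⌈Real.exp (2 / c1)⌉₊ with hk
  have hk0 : k0 ≤ k := (le_max_left _ _).trans (le_max_left _ _)
  have hk2 : 2 ≤ k := (le_max_right _ _).trans (le_max_left _ _)
  have hke : Real.exp (2 / c1) ≤ k := (Nat.le_ceil _).trans (by exact_mod_cast le_max_right _ _)
  have hlk : 2 ≤ c1 * Real.log k := by
    have h1 : 2 / c1 ≤ Real.log k := by
      rw [Real.le_log_iff_exp_le (by exact_mod_cast (by omega : 0 < k))]
      exact hke
    rw [div_le_iff₀ hc1] at h1
    linarith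
  obtain ⟨B1, x0, hB1⟩ := hmain k hk0
  set W := k.factorial with hW
  have hWpos : 0 < W := Nat.factorial_pos k
  have hkR : (2 : ℝ) ≤ k := by exact_mod_cast hk2
  have hWR : (1 : ℝ) ≤ W := by exact_mod_cast hWpos
  -- large n
  have hev : ∀ᶠ y : ℝ in Filter.atTop, max x0 3 ≤ y / 2 ∧ 4 * (k : ℝ) ^ 2 ≤ Real.log y ∧
      8 * (Real.log y) ^ (B1 + 1) ≤ y := by
    have h3 : Filter.Tendsto (fun y : ℝ => 8 * (Real.log y) ^ (B1 + 1) / y) Filter.atTop (nhds 0) := by
      have h4 : Filter.Tendsto (fun y : ℝ => (Real.log y) ^ (B1 + 1) / y) Filter.atTop (nhds 0) := by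
        have h5 := (Real.isLittleO_pow_log_id_atTop (n := B1 + 1)).tendsto_div_nhds_zero
        simpa using h5
      have h6 := h4.const_mul 8
      rw [mul_zero] at h6
      refine h6.congr fun y => ?_
      ring
    have h4 : ∀ᶠ y : ℝ in Filter.atTop, 8 * (Real.log y) ^ (B1 + 1) / y < 1 := h3.eventually (gt_mem_nhds one_pos)
    filter_upwards [Filter.eventually_ge_atTop (2 * max x0 3), Real.tendsto_log_atTop.eventually_ge_atTop (4 * (k : ℝ) ^ 2),
      h4, Filter.eventually_gt_atTop 0] with y h5 h6 h7 h8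
    rw [div_lt_one h8] at h7
    exact ⟨by linarith, h6, h7.le⟩
  obtain ⟨n0, hn0⟩ := Filter.eventually_atTop.1 (tendsto_natCast_atTop_atTop.eventually hev)
  refine ⟨1 / (8 * k * W), by positivity, B1 + 1, 4 * k * W, n0, fun n hn m hm hmn => ?_⟩
  obtain ⟨hx, hlog, hpow⟩ := hn0 n hn
  set J := m / W with hJ
  set D := (Icc 1 J).filter (fun d => (n : ℝ) / (Real.log n) ^ (B1 + 1) ≤ hdeg n (W * d)) with hD
  have hJW : J * W ≤ m := Nat.div_mul_le_self m W
  -- the main step: there is no tuple without good differences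
  have hkey : J + 1 < k * (2 * D.card + 1) := by
    by_contra hcon
    push Not at hcon
    obtain ⟨S, hS1, hS2, hS3⟩ := greedy D J k hcon
    set A := S.image (fun j => 2 * W * j) with hA
    have hinj : Function.Injective (fun j : ℕ => 2 * W * j) := fun a b h => by
      have h' : 2 * W * a = 2 * W * b := h
      exact Nat.eq_of_mul_eq_mul_left (by positivity) h'
    have hAc : A.card = k := by rw [hA, card_image_of_injective _ hinj, hS2]
    have hAm : ∀ b ∈ A, b ≤ 2 * m := by
      intro b hb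
      rw [hA, mem_image] at hb
      obtain ⟨j, hj, rfl⟩ := hb
      have h1 := mem_range.1 (hS1 hj)
      have h2 : W * j ≤ m := by
        calc W * j ≤ W * J := Nat.mul_le_mul_left _ (by omega)
          _ = J * W := by ring
          _ ≤ m := hJW
      calc 2 * W * j = 2 * (W * j) := by ring
        _ ≤ 2 * m := by omega
    have hne : A.Nonempty := by
      rw [← card_pos, hAc]; omega
    obtain ⟨a, ha⟩ := hne
    have hxn : x0 ≤ (n : ℝ) / 2 := (le_max_left _ _).trans hx
    have hx3 : (3 : ℝ) ≤ (n : ℝ) / 2 := (le_max_right _ _).trans hx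
    have hmnR : (1000 : ℝ) * m ≤ n := by exact_mod_cast hmn
    have hres := hB1 ((n : ℝ) / 2) hxn A hAc.ge (fun p hp => adm k A hAc (fun b hb => by
      rw [hA, mem_image] at hb
      obtain ⟨j, hj, rfl⟩ := hb
      exact dvd_mul_right _ _) p hp) (fun b hb => by
      have h1 : (b : ℝ) ≤ 2 * m := by exact_mod_cast hAm b hb
      linarith) a ha
    set N := ⌊(n : ℝ) / 2⌋₊ with hN
    have h2N : 2 * N ≤ n := by
      have h1 : (N : ℝ) ≤ (n : ℝ) / 2 := Nat.floor_le (by positivity)
      have h2 : ((2 * N : ℕ) : ℝ) ≤ n := by push_cast; linarith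
      exact_mod_cast h2
    set T := (Icc 1 N).filter (fun t =>
        ((∀ q : ℕ, q.Prime → q ∣ t + a → ((n : ℝ) / 2) ^ (1 / 11 : ℝ) ≤ q) ∧
          ((t + a).Prime ∨ ∃ r s : ℕ, r.Prime ∧ s.Prime ∧ t + a = r * s)) ∧
        c1 * Real.log k ≤ (((A.erase a).filter (fun b => (t + b).Prime)).card : ℝ)) with hT
    have hT2 : ∀ t ∈ T, t ∈ Icc 1 N ∧ 2 ≤ (A.filter (fun b => (t + b).Prime)).card := by
      intro t ht
      rw [hT, mem_filter] at ht
      refine ⟨ht.1, ?_⟩
      have h1 : (2 : ℝ) ≤ (((A.erase a).filter (fun b => (t + b).Prime)).card : ℝ) := hlk.trans ht.2.2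
      have h2 : 2 ≤ ((A.erase a).filter (fun b => (t + b).Prime)).card := by exact_mod_cast h1
      exact h2.trans (card_le_card (filter_subset_filter _ (erase_subset _ _)))
    obtain ⟨b, b', hbb, hcard⟩ := tuple k N A hAc.le T hT2
    -- sizes
    have hlogn : 0 < Real.log n := by
      have : (0 : ℝ) < 4 * (k : ℝ) ^ 2 := by positivity
      linarith
    have hln2 : Real.log ((n : ℝ) / 2) ≤ Real.log n := Real.log_le_log (by linarith) (by linarith)
    have hln0 : 0 < Real.log ((n : ℝ) / 2) := Real.log_pos (by linarith)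
    have hTcard : (n : ℝ) / 2 / (Real.log n) ^ B1 ≤ T.card := by
      refine le_trans ?_ hres
      apply div_le_div_of_nonneg_left (by linarith) (by positivity)
      exact pow_le_pow_left₀ hln0.le hln2 _
    have hTpos : T.card ≠ 0 := by
      intro h0
      rw [h0] at hTcard
      have : 0 < (n : ℝ) / 2 / (Real.log n) ^ B1 := by
        have : (0 : ℝ) < (n : ℝ) / 2 := by linarith
        positivity
      simp at hTcard
      linarith
    obtain ⟨hbA, hbA', hlt⟩ := hbb.resolve_left hTpos
    rw [hA, mem_image] at hbA hbA'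
    obtain ⟨i, hi, hib⟩ := hbA
    obtain ⟨j, hj, hjb⟩ := hbA'
    have hij : i < j := by
      rw [← hib, ← hjb] at hlt
      exact lt_of_mul_lt_mul_left hlt (Nat.zero_le _)
    have hdiff : b' - b = 2 * (W * (j - i)) := by
      rw [← hib, ← hjb, ← Nat.mul_sub]
      ring
    have hX : (b' - b) / 2 = W * (j - i) := by rw [hdiff]; exact Nat.mul_div_cancel_left _ two_pos
    have hbm : b ≤ 2 * m := hAm b (by rw [hA, mem_image]; exact ⟨i, hi, hib⟩)
    have hbm' : b' ≤ 2 * m := hAm b' (by rw [hA, mem_image]; exact ⟨j, hj, hjb⟩)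
    have hpd := pair_deg n m b b' N hbm hbm' hlt (by rw [hdiff]; exact even_two_mul _) h2N (by omega)
    rw [hX] at hpd
    have hfin : (T.card : ℝ) ≤ (k : ℝ) ^ 2 * (hdeg n (W * (j - i)) + 2) := by
      have h1 : T.card ≤ k ^ 2 * (hdeg n (W * (j - i)) + 2) := hcard.trans (Nat.mul_le_mul_left _ hpd)
      exact_mod_cast h1
    have hgood : (n : ℝ) / (Real.log n) ^ (B1 + 1) ≤ hdeg n (W * (j - i)) := by
      have h1 : (n : ℝ) / 2 / (Real.log n) ^ B1 ≤ (k : ℝ) ^ 2 * (hdeg n (W * (j - i)) + 2) := hTcard.trans hfin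
      set L := Real.log n with hL
      set z := (n : ℝ) / L ^ (B1 + 1) with hz
      have h2 : (n : ℝ) / 2 / L ^ B1 = z * L / 2 := by
        rw [hz, pow_succ]
        field_simp
      have h3 : 8 ≤ z := by
        rw [hz, le_div_iff₀ (by positivity)]
        exact hpow
      rw [h2] at h1
      have h4 : z * (4 * (k : ℝ) ^ 2) ≤ z * L := mul_le_mul_of_nonneg_left hlog (by linarith)
      have h5 : (k : ℝ) ^ 2 * (2 * z) ≤ (k : ℝ) ^ 2 * (hdeg n (W * (j - i)) + 2) := by nlinarith
      have h6 : 2 * z ≤ hdeg n (W * (j - i)) + 2 := le_of_mul_le_mul_left h5 (by positivity)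
      linarith
    apply hS3 i hi j hj hij
    rw [hD, mem_filter, mem_Icc]
    have hjJ := mem_range.1 (hS1 hj)
    exact ⟨⟨by omega, by omega⟩, hgood⟩
  -- counting
  have hDle : D.card ≤ ((Icc 1 m).filter (fun X => (n : ℝ) / (Real.log n) ^ (B1 + 1) ≤ hdeg n X)).card := by
    refine card_le_card_of_injOn (fun d => W * d) ?_ ?_
    · intro d hd
      rw [mem_coe, hD, mem_filter, mem_Icc] at hd
      rw [mem_coe, mem_filter, mem_Icc]
      refine ⟨⟨Nat.mul_pos hWpos hd.1.1, ?_⟩, hd.2⟩
      calc W * d ≤ W * J := Nat.mul_le_mul_left _ hd.1.2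
        _ = J * W := by ring
        _ ≤ m := hJW
    · intro a _ b _ h
      exact Nat.eq_of_mul_eq_mul_left hWpos h
  have hmJ : m < (J + 1) * W := by
    rw [hJ]
    exact Nat.lt_mul_of_div_lt (Nat.lt_succ_self _) hWpos
  have h1 : ((J : ℝ) + 1) ≤ k * (2 * D.card + 1) := by exact_mod_cast hkey.le
  have h2 : (m : ℝ) ≤ (J + 1) * W := by exact_mod_cast hmJ.le
  have h3 : (4 : ℝ) * k * W ≤ m := by exact_mod_cast hm
  have h4 : (D.card : ℝ) ≤ (((Icc 1 m).filter (fun X => (n : ℝ) / (Real.log n) ^ (B1 + 1) ≤ hdeg n X)).card : ℝ) := by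
    exact_mod_cast hDle
  refine le_trans ?_ h4
  have h5 : (m : ℝ) ≤ k * (2 * D.card + 1) * W := h2.trans (mul_le_mul_of_nonneg_right h1 (by linarith))
  rw [one_div, inv_mul_le_iff₀ (by positivity)]
  nlinarith

end Pool.Agent.Lib.H18P
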