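import Pool.Agent.Lib.H18P.OX
import Pool.Agent.Lib.H18E.DE

/-!
# Project H18P (MP_443e5f_co): degrees at the own scale

`H18E.deg_good` and `H18E.deg_exc` (weak bound) for `ohdeg`.
-/

open Finset Pool.Agent.Lib.H68T Pool.Agent.Lib.H18E Pool.Agent.Lib.GoldbachGraph

namespace Pool.Agent.Lib.H18P

/-- The number of neighbours of `x` in `[1, n]`, only those below `x` if `2 x > n`. -/
noncomputable def ohdeg (n x : ℕ) : ℕ :=
  open Classical in ((Icc 1 n).filter (fun Y => hadj x Y ∧ (n < 2 * x → Y < x))).card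

theorem osum_cdeg (n r x : ℕ) (S : Finset ℕ) (_hS : S ⊆ compat r x) :
    ∑ y0 ∈ S, ocdeg n r x y0 ≤ ohdeg n x := by
  classical
  unfold ocdeg ohdeg
  rw [← Finset.card_biUnion]
  · apply card_le_card
    intro Y hY
    rw [mem_biUnion] at hY
    obtain ⟨y0, _, hY⟩ := hY
    rw [mem_filter] at hY ⊢
    exact ⟨hY.1, hY.2.1, hY.2.2.2⟩
  · intro a _ b _ hab
    rw [Function.onFun, Finset.disjoint_left]
    intro Y h1 h2
    rw [mem_filter] at h1 h2
    exact hab (h1.2.2.1.symm.trans h2.2.2.1)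

/-- `H18E.deg_good` at the own scale -/
theorem odeg_good (c : ℝ) (hc : 0 < c) : ∃ K c0 : ℝ, 1 ≤ K ∧ 0 < c0 ∧ ∀ n Q : ℕ, Reg K Q n →
    Good c Q → ∃ B : Finset ℕ, B ⊆ Icc 1 n ∧ (B.card : ℝ) ≤ n * (Q : ℝ) ^ (-(1 / 20) : ℝ) ∧
      ∀ x ∈ Icc 1 n, x ∉ B → c0 * SE x * n / (Real.log n) ^ 2 ≤ ohdeg n x := by
  classical
  obtain ⟨K1, C, hK1, hC, hxc⟩ := ox_class
  obtain ⟨K2, hK2, hst⟩ := str_good c hc
  obtain ⟨K0, hK0, hsh⟩ := reg_shift
  refine ⟨K1 + 2 * K2 + K0 + 240 * C + 100, 1 / 2048, by linarith, by norm_num, ?_⟩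
  intro n Q hR hG
  have hKpos : (0 : ℝ) ≤ K1 + 2 * K2 + K0 + 240 * C + 100 := by linarith
  have hR1 : Reg K1 Q n := hR.mono hKpos (by linarith)
  have hR2 : Reg (2 * K2 + K0) Q n := hR.mono hKpos (by linarith)
  have hn100 : (100 : ℝ) ≤ n := by
    have := hR.X_ge (by linarith : 0 < K1 + 2 * K2 + K0 + 240 * C + 100)
    linarith
  have hn8 : 100 ≤ n := by exact_mod_cast hn100
  have hL100 : 100 ≤ Real.log n := by
    have h1 := hR.logX_ge (by linarith : 0 < K1 + 2 * K2 + K0 + 240 * C + 100)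
    have h2 := Real.add_one_le_exp (K1 + 2 * K2 + K0 + 240 * C + 100)
    linarith
  have hX := DG_X n 1 one_pos (by omega)
  have hR3 : Reg K2 Q (3 * n / (8 * 1) * 1) := hsh K2 (by linarith) Q n _ hR2 hX.1 hX.2
  have hS := hst Q _ hR3 hG
  have hQ1 : 1 ≤ Q := hR1.Q_pos hK1
  obtain ⟨B, hB, hBx⟩ := hxc n Q 1 _ 1 (fun _ => 0) hR1 hS (by simpa using hQ1)
  have hlogQ : 240 * C ≤ Real.log Q := by
    have := hR.logQ_ge (by linarith)
    linarith
  obtain ⟨hq20, hq8⟩ := DG_Q C hC Q hlogQ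
  -- the error `τ`
  have htau : (Real.log ((3 * n / (8 * 1) * 1 : ℕ) : ℝ)) ^ (-20 : ℝ) * (Real.log n) ^ 10 ≤ 1 / 12 := by
    set X := 3 * n / (8 * 1) * 1 with hXdef
    have hX0 : (0 : ℝ) < X := by
      have : 0 < X := by omega
      exact_mod_cast this
    have hlX : Real.log n / 2 ≤ Real.log X := by
      have h4 : (n : ℝ) ≤ 4 * X := by exact_mod_cast hX.1
      have h5 := Real.log_le_log (by linarith) h4
      rw [Real.log_mul (by norm_num) hX0.ne'] at h5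
      have h6 : Real.log 4 ≤ 4 := by
        have := Real.log_le_sub_one_of_pos (show (0 : ℝ) < 4 by norm_num)
        linarith
      linarith
    set L := Real.log n with hLdef
    have hL0 : 0 < L := by linarith
    have h1 : (Real.log X) ^ (-20 : ℝ) ≤ (L / 2) ^ (-20 : ℝ) :=
      Real.rpow_le_rpow_of_nonpos (by linarith) hlX (by norm_num)
    have h2 : (L / 2) ^ (-20 : ℝ) * L ^ 10 = 2 ^ 20 / L ^ 10 := by
      have h3 : (L / 2) ^ (-20 : ℝ) = ((L / 2) ^ 20)⁻¹ := by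
        rw [Real.rpow_neg (by linarith)]
        norm_cast
      rw [h3]
      field_simp
    calc (Real.log X) ^ (-20 : ℝ) * L ^ 10 ≤ (L / 2) ^ (-20 : ℝ) * L ^ 10 :=
          mul_le_mul_of_nonneg_right h1 (by positivity)
      _ = 2 ^ 20 / L ^ 10 := h2
      _ ≤ 2 ^ 20 / 100 ^ 10 := by
          apply div_le_div_of_nonneg_left (by norm_num) (by norm_num)
          exact pow_le_pow_left₀ (by norm_num) hL100 10
      _ ≤ 1 / 12 := by norm_num
  refine ⟨B ∩ Icc 1 n, inter_subset_right, ?_, ?_⟩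
  · refine le_trans ?_ hB
    exact_mod_cast card_le_card inter_subset_left
  · intro x hx hxB
    have hxB' : x ∉ B := fun h => hxB (mem_inter.2 ⟨h, hx⟩)
    have hx1 : 1 ≤ x := (mem_Icc.1 hx).1
    have hc1 : compat 1 x = {0} := by
      ext y
      simp only [compat, mem_filter, mem_range, mem_singleton, Nat.cast_one]
      constructor
      · intro h; omega
      · rintro rfl
        exact ⟨by norm_num, isCoprime_one_right, isCoprime_one_right⟩
    have h1 := hBx x hx hxB' 0 (by rw [hc1]; simp) 1 zero_le_one (fun m m' _ _ => by simp)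
    have hdg : ocdeg n 1 x 0 ≤ ohdeg n x := by
      have := osum_cdeg n 1 x {0} (by rw [hc1])
      simpa using this
    have hgp := compat_gp 1 x one_pos hx1
    rw [hc1] at hgp
    simp only [card_singleton, Nat.cast_one, Nat.totient_one, one_pow, div_one, one_mul] at hgp h1
    have hgp1 := one_le_Gp 1 (2 * (x : ℤ))
    have hSE := DG_SE x
    obtain ⟨hl0, hl2⟩ := DG_log n (by omega)
    have hd0 : (0 : ℝ) ≤ ocdeg n 1 x 0 := Nat.cast_nonneg _
    have hd1 : (ocdeg n 1 x 0 : ℝ) ≤ ohdeg n x := by exact_mod_cast hdg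
    have hL0 : 0 < Real.log n := by linarith
    have hbr : 1 / 8 * SE x ≤ (1 / 2 * Gp 1 (2 * (x : ℤ)) - C * (Q : ℝ) ^ (-(1 / 8) : ℝ)) -
          (Real.log ((3 * n / (8 * 1) * 1 : ℕ) : ℝ)) ^ (-20 : ℝ) * (Real.log n) ^ 10 -
          C * (Q : ℝ) ^ (-(1 / 20) : ℝ) := by
      linarith
    have hn0 : (0 : ℝ) ≤ n / 64 := by positivity
    rw [div_le_iff₀ (by positivity)]
    have h3 : 1 / 8 * SE x * (n / 64) ≤ ohdeg n x * (4 * (Real.log n) ^ 2) := by
      calc 1 / 8 * SE x * ((n : ℝ) / 64) ≤ _ := mul_le_mul_of_nonneg_right hbr hn0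
        _ ≤ ocdeg n 1 x 0 * (Real.log (2 * n)) ^ 2 := by
            refine le_trans (le_of_eq ?_) h1
            norm_num
        _ ≤ ohdeg n x * (4 * (Real.log n) ^ 2) := by
            apply mul_le_mul hd1 hl2 (by positivity) (by positivity)
    nlinarith

/-- `H18E.deg_exc` (weak bound) at the own scale -/
theorem odeg_exc (c' C δ : ℝ) (hc' : 0 < c') (hδ : 0 < δ) :
    ∃ K R : ℝ, ∃ E : ℕ, 1 ≤ K ∧ ∀ (n Q r : ℕ) [NeZero r]
    (ψ : DirichletCharacter ℂ r) (β : ℝ), Reg K Q n → ExcData c' C Q r ψ β → ψ.IsPrimitive →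
    R ≤ r → δ / (r : ℝ) ^ 2 ≤ 1 - β → (r : ℝ) ^ E ≤ Q → E * Real.log r * Real.log Q ≤ Real.log n →
    ∃ B : Finset ℕ, B ⊆ Icc 1 n ∧ (B.card : ℝ) ≤ n * (Q : ℝ) ^ (-(1 / 20) : ℝ) ∧
      ∀ x ∈ Icc 1 n, x ∉ B → (n : ℝ) ≤ ohdeg n x * ((r : ℝ) ^ 6 * (Real.log n) ^ 3) := by
  classical
  obtain ⟨K1, C1, hK1, hC1, hxc⟩ := ox_class
  obtain ⟨K2, hK2, hst⟩ := str_exc c' C hc'
  obtain ⟨K0, hK0, hsh⟩ := reg_shift
  obtain ⟨K3, E, hE, hK3, herr⟩ := de_err K2 C1 hK2 hC1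
  refine ⟨K1 + 2 * K2 + K0 + K3 + 300, 16 / δ ^ 2 + 2, E, by linarith, ?_⟩
  intro n Q r _ ψ β hR hexc hψ hRr hδβ hrE hrn
  set K := K1 + 2 * K2 + K0 + K3 + 300 with hKdef
  have hKpos : (0 : ℝ) < K := by rw [hKdef]; linarith
  have hR1 : Reg K1 Q n := hR.mono hKpos.le (by rw [hKdef]; linarith)
  have hR2 : Reg (2 * K2 + K0) Q n := hR.mono hKpos.le (by rw [hKdef]; linarith)
  have hR4 : Reg K3 Q n := hR.mono hKpos.le (by rw [hKdef]; linarith)
  have hK300 : 300 ≤ K := by rw [hKdef]; linarith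
  have hn300 : (300 : ℝ) ≤ n := by
    have := hR.X_ge hKpos
    linarith
  have hn8 : 300 ≤ n := by exact_mod_cast hn300
  have hL300 : 300 ≤ Real.log n := by
    have h1 := hR.logX_ge hKpos
    have h2 := Real.add_one_le_exp K
    linarith
  have hlogQ : 300 ≤ Real.log Q := by
    have := hR.logQ_ge (by linarith)
    linarith
  have hr1 : 1 ≤ r := NeZero.one_le
  have hδ2 : 0 ≤ 16 / δ ^ 2 := by positivity
  have hr2 : (2 : ℝ) ≤ r := by linarith
  have hr0 : (0 : ℝ) < r := by linarith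
  have hlr : 0 ≤ Real.log r := Real.log_natCast_nonneg r
  have hE100 : (100 : ℝ) ≤ E := by exact_mod_cast hE
  have h8r : 8 * r ≤ n := by
    have h1 : 100 * Real.log r ≤ Real.log n := by
      have h2 : 100 * Real.log r * 1 ≤ E * Real.log r * Real.log Q := by
        apply mul_le_mul _ (by linarith) zero_le_one (by positivity)
        exact mul_le_mul_of_nonneg_right hE100 hlr
      linarith
    have h3 : Real.log (8 * r) ≤ Real.log n := by
      rw [Real.log_mul (by norm_num) hr0.ne']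
      have : Real.log 8 ≤ 8 := by
        have := Real.log_le_sub_one_of_pos (show (0 : ℝ) < 8 by norm_num)
        linarith
      linarith
    have h4 := (Real.log_le_log_iff (by positivity) (by linarith)).1 h3
    exact_mod_cast h4
  have hX := DG_X n r hr1 h8r
  have hR3 : Reg K2 Q (3 * n / (8 * r) * r) := hsh K2 (by linarith) Q n _ hR2 hX.1 hX.2
  have hS := hst Q _ hR3 r ψ β hr1 hexc
  have hr100 : r ^ 100 ≤ Q := by
    have h1 : (r : ℝ) ^ 100 ≤ (r : ℝ) ^ E := pow_le_pow_right₀ (by linarith) hE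
    have h2 := h1.trans hrE
    exact_mod_cast h2
  obtain ⟨B, hB, hBx⟩ := hxc n Q r _ β _ hR1 hS hr100
  obtain ⟨e1, e2, e3⟩ := herr n Q _ r hR4 hX.1 hX.2 hr1 hrE hrn
  -- small quantities
  have hphi0 : (0 : ℝ) < Nat.totient r := by exact_mod_cast Nat.totient_pos.2 hr1
  have hrphi : 1 ≤ ((r : ℝ) / Nat.totient r) ^ 2 := by
    have : (Nat.totient r : ℝ) ≤ r := by exact_mod_cast Nat.totient_le r
    have h1 : 1 ≤ (r : ℝ) / Nat.totient r := by
      rw [le_div_iff₀ hphi0]; linarith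
    nlinarith
  set P := ((r : ℝ) / Nat.totient r) ^ 2 with hP
  have hr5 : (r : ℝ) ^ 10 = (r : ℝ) ^ 5 * (r : ℝ) ^ 5 := by ring
  have hr5' : 32 ≤ (r : ℝ) ^ 5 := by
    calc (32 : ℝ) = 2 ^ 5 := by norm_num
      _ ≤ (r : ℝ) ^ 5 := pow_le_pow_left₀ (by norm_num) hr2 5
  have hε : 1 / (4 * (r : ℝ) ^ 10) ≤ 1 / 128 * (1 / (r : ℝ) ^ 5) := by
    rw [hr5, div_mul_div_comm, one_mul]
    apply one_div_le_one_div_of_le (by positivity)
    nlinarith [mul_le_mul_of_nonneg_right hr5' (by positivity : (0 : ℝ) ≤ (r : ℝ) ^ 5)]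
  set ε := 1 / (4 * (r : ℝ) ^ 10) with hεdef
  have hr5i : 1 / (r : ℝ) ^ 5 ≤ 1 / 32 := one_div_le_one_div_of_le (by norm_num) hr5'
  obtain ⟨hl0, hl2⟩ := DG_log n (by omega)
  have hL0 : 0 < Real.log n := by linarith
  set τ := sw K2 Q (3 * n / (8 * r) * r) with hτ
  refine ⟨B ∩ Icc 1 n, inter_subset_right, ?_, ?_⟩
  · refine le_trans ?_ hB
    exact_mod_cast card_le_card inter_subset_left
  intro x hx hxB
  have hxB' : x ∉ B := fun h => hxB (mem_inter.2 ⟨h, hx⟩)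
  have hx1 : 1 ≤ x := (mem_Icc.1 hx).1
  have hgp := compat_gp r x hr1 hx1
  have hgp1 := one_le_Gp r (2 * (x : ℤ))
  have hSE := DG_SE x
  set g := Gp r (2 * (x : ℤ)) with hg
  have hn64 : (0 : ℝ) < n / (64 * r) := by positivity
  · -- weak bound
    have hne : (compat r x).Nonempty := by
      rw [Finset.nonempty_iff_ne_empty]
      intro h0
      rw [h0, card_empty, Nat.cast_zero, zero_mul, zero_mul] at hgp
      linarith
    obtain ⟨y0, hy0⟩ := hne
    obtain ⟨k1, k2⟩ := DE_kappa ((n : ℝ) / 4) β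
      ((ψ ((((x : ℤ) + y0 : ℤ)) : ZMod r)).re)
      ((ψ (((if 2 * x ≤ n then (y0 : ℤ) - x else (x : ℤ) - y0 : ℤ)) : ZMod r)).re)
      (by linarith) hexc.half hexc.lt.le
      ((Complex.abs_re_le_norm _).trans (DirichletCharacter.norm_le_one ψ _))
      ((Complex.abs_re_le_norm _).trans (DirichletCharacter.norm_le_one ψ _))
    have h1 := hBx x hx hxB' y0 hy0 _ (sq_nonneg (1 - ((n : ℝ) / 4) ^ (β - 1))) k2
    set κ := (1 - ((n : ℝ) / 4) ^ (β - 1)) ^ 2 with hκ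
    have hκ1 : 4 * (1 / (r : ℝ) ^ 5) ≤ κ := by
      refine le_trans ?_ k1
      have h2 : δ / (2 * (r : ℝ) ^ 2) ≤ (1 - β) / 2 := by
        have : δ / (2 * (r : ℝ) ^ 2) = δ / (r : ℝ) ^ 2 / 2 := by field_simp
        rw [this]; linarith
      have h3 : (δ / (2 * (r : ℝ) ^ 2)) ^ 2 ≤ ((1 - β) / 2) ^ 2 :=
        pow_le_pow_left₀ (by positivity) h2 2
      refine le_trans ?_ h3
      have h4 : (δ / (2 * (r : ℝ) ^ 2)) ^ 2 = δ ^ 2 * r / (4 * (r : ℝ) ^ 5) := by
        field_simp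
        ring
      rw [h4, mul_one_div, div_le_div_iff₀ (by positivity) (by positivity)]
      have h5 : 16 ≤ δ ^ 2 * r := by
        have h6 : 16 / δ ^ 2 ≤ r := by linarith
        rw [div_le_iff₀ (by positivity)] at h6
        linarith
      nlinarith [mul_le_mul_of_nonneg_right h5 (by positivity : (0 : ℝ) ≤ (r : ℝ) ^ 5)]
    have hbr : 1 / (r : ℝ) ^ 5 ≤ P * (κ * (1 / 2 * g) - C1 * (Q : ℝ) ^ (-(1 / 8) : ℝ)) -
        τ * (Real.log n) ^ 10 - C1 * (Q : ℝ) ^ (-(1 / 20) : ℝ) := by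
      have hκ0 : 0 ≤ κ := sq_nonneg _
      have h2 : κ * (1 / 2) ≤ κ * (1 / 2 * g) := by
        apply mul_le_mul_of_nonneg_left _ hκ0
        linarith
      have h5 : 0 ≤ 1 / (r : ℝ) ^ 5 := by positivity
      have h3 : 1.5 * (1 / (r : ℝ) ^ 5) ≤ κ * (1 / 2 * g) - C1 * (Q : ℝ) ^ (-(1 / 8) : ℝ) := by
        nlinarith
      have h4 : 1 * (1.5 * (1 / (r : ℝ) ^ 5)) ≤
          P * (κ * (1 / 2 * g) - C1 * (Q : ℝ) ^ (-(1 / 8) : ℝ)) := by
        apply mul_le_mul hrphi h3 (by positivity) (by linarith)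
      nlinarith
    have h2 : 1 / (r : ℝ) ^ 5 * (n / (64 * r)) ≤ ocdeg n r x y0 * (Real.log (2 * n)) ^ 2 :=
      (mul_le_mul_of_nonneg_right hbr hn64.le).trans h1
    have hdg : ocdeg n r x y0 ≤ ohdeg n x := by
      have := osum_cdeg n r x {y0} (by simpa using hy0)
      simpa using this
    have hd1 : (ocdeg n r x y0 : ℝ) ≤ ohdeg n x := by exact_mod_cast hdg
    have h3 : 1 / (r : ℝ) ^ 5 * (n / (64 * r)) ≤ ohdeg n x * (4 * (Real.log n) ^ 2) :=
      h2.trans (mul_le_mul hd1 hl2 (by positivity) (by positivity))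
    have h4 : 1 / (r : ℝ) ^ 5 * ((n : ℝ) / (64 * r)) = n / (64 * (r : ℝ) ^ 6) := by
      field_simp
    rw [h4, div_le_iff₀ (by positivity)] at h3
    refine h3.trans ?_
    have h5 : ohdeg n x * (4 * (Real.log n) ^ 2) * (64 * (r : ℝ) ^ 6) =
        ohdeg n x * (r : ℝ) ^ 6 * (Real.log n) ^ 2 * 256 := by ring
    have h6 : ohdeg n x * ((r : ℝ) ^ 6 * (Real.log n) ^ 3) =
        ohdeg n x * (r : ℝ) ^ 6 * (Real.log n) ^ 2 * Real.log n := by ring
    rw [h5, h6]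
    apply mul_le_mul_of_nonneg_left (by linarith) (by positivity)

end Pool.Agent.Lib.H18P
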