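import Pool.Agent.Lib.H18P.P1
import Pool.Agent.Lib.H18E.FN2

/-!
# Project H18P (MP_443e5f_co): good vertices of all scales

For every level `n` there is a set `g n` of good vertices, pairwise at distance at most `7`; all but
`n exp (-(log n)^a)/2` vertices are at distance at most `1` from `g n`; every vertex with more than `n exp (-(log n)^a)/2` neighbours in `[1, n]` is at distance at most `2` from `g n`; and every good
vertex of a level `m ≤ n` is at distance at most `10` from `g n`.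
-/

open Finset Pool.Agent.Lib.H18GB Pool.Agent.Lib.GoldbachGraph Pool.Agent.Lib.H18E

namespace Pool.Agent.Lib.H18P

theorem HG_mono {m n : ℕ} (h : m ≤ n) : HG m ≤ HG n := by
  intro x y hxy
  obtain ⟨h1, h2, h3⟩ := hxy
  rw [mem_Icc] at h2 h3
  exact ⟨h1, mem_Icc.2 ⟨h2.1, h2.2.trans h⟩, mem_Icc.2 ⟨h3.1, h3.2.trans h⟩⟩

theorem edist_mono {m n : ℕ} (h : m ≤ n) (x y : ℕ) : (HG n).edist x y ≤ (HG m).edist x y :=
  SimpleGraph.edist_anti (HG_mono h)

/-- the threshold is smaller than every small power of the logarithm -/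
theorem thr_log (a : ℝ) (ha : 0 < a) (B : ℕ) : ∀ᶠ y : ℝ in Filter.atTop,
    y ^ B * Real.exp (-y ^ a) < 1 := by
  filter_upwards [PA_log a B 1 ha, Filter.eventually_ge_atTop (1 : ℝ)] with y h1 h2
  have hy0 : 0 < y := by linarith
  have h3 : y ^ B = Real.exp (B * Real.log y) := by
    rw [mul_comm, Real.exp_mul, Real.exp_log hy0, Real.rpow_natCast]
  rw [h3, ← Real.exp_add]
  rw [Real.exp_lt_one_iff]
  linarith

theorem thr_small (a c : ℝ) (ha : 0 < a) (hc : 0 < c) : ∀ᶠ y : ℝ in Filter.atTop,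
    Real.exp (-y ^ a) < c := by
  filter_upwards [thr_log a ha 1, Filter.eventually_ge_atTop (1 / c), Filter.eventually_ge_atTop (1 : ℝ)]
    with y h1 h2 h3
  rw [pow_one] at h1
  have h4 : Real.exp (-y ^ a) < 1 / y := by
    rw [lt_div_iff₀ (by linarith)]
    linarith
  refine h4.trans_le ?_
  rw [div_le_iff₀ (by linarith)]
  rw [div_le_iff₀ hc] at h2
  linarith

theorem levels (a : ℝ) (ha : 0 < a) (ha2 : a < 1 / 2) : ∃ n0 : ℕ, ∃ g : ℕ → Finset ℕ,
    (∀ n, n0 ≤ n → g n ⊆ Icc 1 n ∧ (∀ x ∈ g n, ∀ y ∈ g n, (HG n).edist x y ≤ 7) ∧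
      (∃ q ∈ g n, q.Prime ∧ Odd q) ∧
      (∃ B : Finset ℕ, (B.card : ℝ) ≤ n * Real.exp (-(Real.log n) ^ a) / 2 ∧
        ∀ x ∈ Icc 1 n, x ∉ B → ∃ z ∈ g n, (HG n).edist x z ≤ 1) ∧
      ∀ x ∈ Icc 1 n, n * Real.exp (-(Real.log n) ^ a) / 2 < hdeg n x → ∃ z ∈ g n, (HG n).edist x z ≤ 2) ∧
    ∀ n m, n0 ≤ m → m ≤ n → ∀ x ∈ g m, ∃ z ∈ g n, (HG n).edist x z ≤ 10 := by
  classical
  obtain ⟨n1, hn1⟩ := tg_main a ha ha2
  obtain ⟨n2, hn2⟩ := fn_prime a ha
  obtain ⟨c, hc, B0, m0, n3, hjump⟩ := jump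
  have hev : ∀ᶠ y : ℝ in Filter.atTop, Real.exp (-y ^ a) < min c (1 / 2000) ∧ y ^ B0 * Real.exp (-y ^ a) < 1 ∧
      1 ≤ y := by
    filter_upwards [thr_small a (min c (1 / 2000)) ha (lt_min hc (by norm_num)), thr_log a ha B0,
      Filter.eventually_ge_atTop (1 : ℝ)] with y h1 h2 h3
    exact ⟨h1, h2, h3⟩
  obtain ⟨n4, hn4⟩ := Filter.eventually_atTop.1
    ((Real.tendsto_log_atTop.comp tendsto_natCast_atTop_atTop).eventually hev)
  choose! B g hB1 hB2 hg1 hg7 hBx hg2 r1 hr1 hBg using hn1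
  refine ⟨max (max n1 n2) (max (max n3 n4) (max m0 1)), g, fun n hn => ?_, fun n m hm hmn x hx => ?_⟩
  · have h1 : n1 ≤ n := by omega
    have h2 : n2 ≤ n := by omega
    have hnn : (0 : ℝ) ≤ n * Real.exp (-(Real.log n) ^ a) := by positivity
    refine ⟨hg1 n h1, hg7 n h1, ?_, ⟨B n, hB2 n h1, fun x hx hxB =>
      fn_one n (B n) (g n) (r1 n) (hr1 n h1) (hBx n h1) (hBg n h1) x hx hxB⟩, fun x hx hd => ?_⟩
    · obtain ⟨q, hq1, hq2, hq3, hq4, hq5⟩ := hn2 n h2 (B n) (by linarith [hB2 n h1]) (r1 n)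
        (by rcases hr1 n h1 with h | h <;> omega)
      exact ⟨q, hBg n h1 q hq1 hq4 hq5, hq2, hq3⟩
    · have h3 : ((B n).card : ℝ) < hdeg n x := lt_of_le_of_lt (hB2 n h1) hd
      exact hg2 n h1 x hx (by exact_mod_cast h3)
  · have h1 : n1 ≤ m := by omega
    have h1' : n1 ≤ n := by omega
    have hm1 : 1 ≤ m := by omega
    have hmR : (0 : ℝ) < m := by exact_mod_cast hm1
    have hnR : (0 : ℝ) < n := by exact_mod_cast (by omega : 0 < n)
    obtain ⟨e1, e2, e3⟩ := hn4 m (by omega)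
    obtain ⟨f1, f2, f3⟩ := hn4 n (by omega)
    simp only [Function.comp] at e1 e2 e3 f1 f2 f3
    -- a common vertex
    obtain ⟨X, hXm, hXB, w, hw, hwe⟩ : ∃ X ∈ Icc 1 m, X ∉ B m ∧ ∃ w ∈ g n, (HG n).edist X w ≤ 2 := by
      by_cases h1000 : 1000 * m ≤ n
      · have hj := hjump n (by omega) m (by omega) h1000
        have h2 : ((B m).card : ℝ) < c * m := by
          have h3 := hB2 m h1
          have h4 : Real.exp (-(Real.log m) ^ a) < c := e1.trans_le (min_le_left _ _)
          have h5 : (m : ℝ) * Real.exp (-(Real.log m) ^ a) ≤ m * c := mul_le_mul_of_nonneg_left h4.le hmR.le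
          have h6 : 0 < (m : ℝ) * c := by positivity
          linarith
        have h3 : (B m).card < ((Icc 1 m).filter (fun X => (n : ℝ) / (Real.log n) ^ B0 ≤ hdeg n X)).card := by
          exact_mod_cast h2.trans_le hj
        obtain ⟨X, hX1, hX2⟩ := exists_mem_notMem_of_card_lt_card h3
        rw [mem_filter] at hX1
        refine ⟨X, hX1.1, hX2, hg2 n h1' X ?_ ?_⟩
        · rw [mem_Icc] at hX1 ⊢
          exact ⟨hX1.1.1, hX1.1.2.trans hmn⟩
        · have h4 : ((B n).card : ℝ) < hdeg n X := by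
            refine lt_of_lt_of_le ?_ hX1.2
            have h5 := hB2 n h1'
            have h6 : (n : ℝ) * Real.exp (-(Real.log n) ^ a) < n / (Real.log n) ^ B0 := by
              rw [lt_div_iff₀ (by positivity)]
              have := mul_lt_mul_of_pos_left f2 hnR
              linarith
            have h7 : 0 < (n : ℝ) * Real.exp (-(Real.log n) ^ a) := by positivity
            linarith
          exact_mod_cast h4
      · push Not at h1000
        have h2 : ((B m).card : ℝ) + (B n).card < m := by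
          have h3 := hB2 m h1
          have h4 := hB2 n h1'
          have h5 : (m : ℝ) * Real.exp (-(Real.log m) ^ a) ≤ m * (1 / 2000) :=
            mul_le_mul_of_nonneg_left (e1.le.trans (min_le_right _ _)) hmR.le
          have h6 : (n : ℝ) * Real.exp (-(Real.log n) ^ a) ≤ n * (1 / 2000) :=
            mul_le_mul_of_nonneg_left (f1.le.trans (min_le_right _ _)) hnR.le
          have h7 : (n : ℝ) < 1000 * m := by exact_mod_cast h1000
          linarith
        have h3 : (B m ∪ B n).card < (Icc 1 m).card := by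
          have h4 : (B m).card + (B n).card < m := by exact_mod_cast h2
          rw [Nat.card_Icc]
          have := card_union_le (B m) (B n)
          omega
        obtain ⟨X, hX1, hX2⟩ := exists_mem_notMem_of_card_lt_card h3
        rw [mem_union, not_or] at hX2
        have hXn : X ∈ Icc 1 n := by
          rw [mem_Icc] at hX1 ⊢
          exact ⟨hX1.1, hX1.2.trans hmn⟩
        obtain ⟨w, hw, hwe⟩ := fn_one n (B n) (g n) (r1 n) (hr1 n h1') (hBx n h1') (hBg n h1') X hXn hX2.2
        exact ⟨X, hX1, hX2.1, w, hw, hwe.trans (by norm_num)⟩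
    obtain ⟨z, hz, hze⟩ := fn_one m (B m) (g m) (r1 m) (hr1 m h1) (hBx m h1) (hBg m h1) X hXm hXB
    refine ⟨w, hw, ?_⟩
    have k1 : (HG n).edist x z ≤ 7 := (edist_mono hmn x z).trans (hg7 m h1 x hx z hz)
    have k2 : (HG n).edist z X ≤ 1 := by
      rw [SimpleGraph.edist_comm]
      exact (edist_mono hmn X z).trans hze
    calc (HG n).edist x w ≤ (HG n).edist x X + (HG n).edist X w := SimpleGraph.edist_triangle
      _ ≤ ((HG n).edist x z + (HG n).edist z X) + (HG n).edist X w :=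
          add_le_add_left SimpleGraph.edist_triangle _
      _ ≤ (7 + 1) + 2 := add_le_add (add_le_add k1 k2) hwe
      _ = 10 := by norm_num

end Pool.Agent.Lib.H18P
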