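import Pool.Agent.Lib.H18P.OD
import Pool.Agent.Lib.H18P.P2

/-!
# Project H18P (MP_443e5f_co): degrees at the own scale of all vertices outside a fixed thin set
-/

open Finset Pool.Agent.Lib.H68T Pool.Agent.Lib.H18E Pool.Agent.Lib.GoldbachGraph

namespace Pool.Agent.Lib.H18P

/-- the dichotomy of `H18E.main_deg`, own scale -/
theorem main_own (a b : ℝ) (ha : 0 < a) (hab : a < b) (hb : b < 1 / 2) : ∃ n0 : ℕ, ∀ n : ℕ,
    n0 ≤ n → ∃ B : Finset ℕ, B ⊆ Icc 1 n ∧
      (B.card : ℝ) ≤ n * Real.exp (-(Real.log n) ^ a) / 2 ∧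
      ∀ x ∈ Icc 1 n, x ∉ B → n * Real.exp (-(Real.log n) ^ b) ≤ ohdeg n x := by
  classical
  obtain ⟨c1, K1, hc1, hgb⟩ := good_below
  obtain ⟨c2, c', C, K2, hc2, hc', hC, hed⟩ := exc_data
  obtain ⟨δ, hδ, hze⟩ := zero_elementary
  set c := min c1 c2 with hcdef
  have hc : 0 < c := lt_min hc1 hc2
  obtain ⟨Kg, cg, hKg, hcg, hdg⟩ := odeg_good c hc
  obtain ⟨Ke, R, E, hKe, hde⟩ := odeg_exc c' C δ hc' hδ
  set R' := |R| + 200 with hR'
  have hRR : R ≤ R' := by rw [hR']; linarith [le_abs_self R]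
  have hR200 : 200 ≤ R' := by rw [hR']; linarith [abs_nonneg R]
  set K := |K1| + |K2| + Kg + Ke + c * R' ^ 2 / δ + 1 with hKdef
  have hK1' : 0 ≤ |K1| := abs_nonneg _
  have hK2' : 0 ≤ |K2| := abs_nonneg _
  have hcR : 0 ≤ c * R' ^ 2 / δ := by positivity
  have hKK1 : K1 ≤ K := by rw [hKdef]; linarith [le_abs_self K1]
  have hKK2 : K2 ≤ K := by rw [hKdef]; linarith [le_abs_self K2]
  have hKKg : Kg ≤ K := by rw [hKdef]; linarith
  have hKKe : Ke ≤ K := by rw [hKdef]; linarith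
  have hKcR : c * R' ^ 2 / δ ≤ K := by rw [hKdef]; linarith
  have hKpos : 0 < K := by rw [hKdef]; linarith
  have hat : a < (a + b) / 2 := by linarith
  have htb : (a + b) / 2 < b := by linarith
  have ht0 : 0 < (a + b) / 2 := by linarith
  have ht : (a + b) / 2 < 1 / 2 := by linarith
  obtain ⟨n0, hn0⟩ := pa_main a ((a + b) / 2) K E ha hat ht
  have hev : ∀ᶠ y : ℝ in Filter.atTop, y ^ 3 * Real.exp (-y ^ b) < 1 ∧ 1 / cg ≤ y ∧
      7 * y ^ ((a + b) / 2) + 0 ≤ y ^ b ∧ 3 * Real.log y + 0 ≤ y ^ ((a + b) / 2) ∧ 1 ≤ y := by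
    filter_upwards [thr_log b (by linarith) 3, Filter.eventually_ge_atTop (1 / cg),
      PA_pow b ((a + b) / 2) 7 0 ht0 htb, PA_log ((a + b) / 2) 3 0 ht0,
      Filter.eventually_ge_atTop (1 : ℝ)] with y h1 h2 h3 h4 h5
    exact ⟨h1, h2, h3, h4, h5⟩
  obtain ⟨n1, hn1⟩ := Filter.eventually_atTop.1
    ((Real.tendsto_log_atTop.comp tendsto_natCast_atTop_atTop).eventually hev)
  refine ⟨max (max n0 n1) 3, fun n hn => ?_⟩
  obtain ⟨p1, p2, p3, p4, p5, p6⟩ := hn0 n (by omega)
  obtain ⟨e1, e2, e3, e4, e5⟩ := hn1 n (by omega)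
  simp only [Function.comp] at e1 e2 e3 e4 e5
  have hn3 : 3 ≤ n := by omega
  have hnpos : 0 < n := by omega
  have hnR : (0 : ℝ) < n := by exact_mod_cast hnpos
  set Q := ⌊Real.exp (Real.sqrt (Real.log n))⌋₊ with hQ
  set t := (a + b) / 2 with htdef
  have hL0 : 0 < Real.log n := p1.logX_pos hKpos
  -- the good case
  have hgood : ∀ x ∈ Icc 1 n, cg * SE x * n / (Real.log n) ^ 2 ≤ ohdeg n x →
      n * Real.exp (-(Real.log n) ^ b) ≤ ohdeg n x := by
    intro x _ h1
    refine le_trans ?_ h1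
    have hSE := DG_SE x
    have h2 : (Real.log n) ^ 2 * Real.exp (-(Real.log n) ^ b) ≤ cg := by
      have h3 : (Real.log n) * ((Real.log n) ^ 2 * Real.exp (-(Real.log n) ^ b)) < 1 := by
        calc (Real.log n) * ((Real.log n) ^ 2 * Real.exp (-(Real.log n) ^ b)) =
            (Real.log n) ^ 3 * Real.exp (-(Real.log n) ^ b) := by ring
          _ < 1 := e1
      have h4 : 1 ≤ cg * Real.log n := by
        rw [div_le_iff₀ hcg] at e2
        linarith
      have h5 : Real.log n * ((Real.log n) ^ 2 * Real.exp (-(Real.log n) ^ b)) ≤ Real.log n * cg := by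
        linarith
      exact le_of_mul_le_mul_left h5 hL0
    rw [le_div_iff₀ (by positivity)]
    have h6 : (n : ℝ) * ((Real.log n) ^ 2 * Real.exp (-(Real.log n) ^ b)) ≤ n * cg :=
      mul_le_mul_of_nonneg_left h2 hnR.le
    have h7 : (n : ℝ) * cg ≤ cg * SE x * n := by
      have h8 : 0 ≤ (n : ℝ) * cg := by positivity
      nlinarith
    linarith
  by_cases hG : Good c Q
  · -- a good level
    obtain ⟨B, hB1, hB2, hB3⟩ := hdg n Q (p1.mono hKpos.le hKKg) hG
    refine ⟨B, hB1, ?_, fun x hx hxB => hgood x hx (hB3 x hx hxB)⟩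
    refine hB2.trans ?_
    have := mul_le_mul_of_nonneg_left p3 hnR.le
    linarith
  · -- an exceptional level
    unfold Good at hG
    push Not at hG
    obtain ⟨r, hne, ψ, hrQ, hprim, hψ1, hψ2, β, hβ1, hβ2, hβ0⟩ := hG
    have hβlt : β < 1 := by
      rcases lt_or_eq_of_le hβ2 with h | h
      · exact h
      · exfalso
        rw [h] at hβ0
        exact DirichletCharacter.LFunction_apply_one_ne_zero hψ1 (by simpa using hβ0)
    have hexc : Exc c Q r ψ β := ⟨hrQ, hprim, hψ1, hψ2, hβ1, hβlt, hβ0⟩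
    have hze' := hze r ψ hψ1 hψ2 β hβlt hβ0
    have hr1 : 1 ≤ r := Nat.one_le_iff_ne_zero.2 (NeZero.ne r)
    have hr0 : (0 : ℝ) < r := by exact_mod_cast hr1
    by_cases hlr : (Real.log n) ^ t < Real.log r
    · -- a large exceptional modulus
      obtain ⟨q1, q2, q3⟩ := p4 r hlr hrQ
      have hG2 : Good c1 (r - 1) := hgb Q r ψ β (hKK1.trans q2) (hexc.mono (min_le_left _ _))
      have hG3 : Good c (r - 1) := hG2.mono (min_le_left _ _)
      obtain ⟨B, hB1, hB2, hB3⟩ := hdg n (r - 1) (q1.mono hKpos.le hKKg) hG3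
      refine ⟨B, hB1, ?_, fun x hx hxB => hgood x hx (hB3 x hx hxB)⟩
      refine hB2.trans ?_
      have := mul_le_mul_of_nonneg_left q3 hnR.le
      linarith
    · -- a small exceptional modulus
      have hlr' := not_lt.1 hlr
      obtain ⟨q1, q2, q3⟩ := p5 r hr1 hlr'
      have hQK : K ≤ Q := p1.Q_ge (by rw [hKdef]; linarith)
      have hdat := hed Q (hKK2.trans hQK) r ψ β (hexc.mono (min_le_right _ _))
      have hRr : R' ≤ r := by
        by_contra hlt
        rw [not_le] at hlt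
        have hlogQ : 0 < Real.log Q := by linarith
        have h1 : 1 - β ≤ c / Real.log Q := by linarith
        have h2 : c / Real.log Q ≤ δ / R' ^ 2 := by
          rw [div_le_div_iff₀ hlogQ (by positivity)]
          have h3 : c * R' ^ 2 / δ ≤ Real.log Q := hKcR.trans p2
          rw [div_le_iff₀ hδ] at h3
          linarith
        have h3 : δ / R' ^ 2 < δ / (r : ℝ) ^ 2 := by
          apply div_lt_div_of_pos_left hδ (by positivity)
          exact pow_lt_pow_left₀ hlt hr0.le two_ne_zero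
        linarith
      obtain ⟨B, hB1, hB2, hB3⟩ := hde n Q r ψ β (p1.mono hKpos.le hKKe) hdat hprim
        (hRR.trans hRr) hze' q1 q2
      refine ⟨B, hB1, ?_, fun x hx hxB => ?_⟩
      · refine hB2.trans ?_
        have := mul_le_mul_of_nonneg_left p3 hnR.le
        linarith
      · have h1 := hB3 x hx hxB
        set L := Real.log n with hL
        have h2 : (r : ℝ) ^ 6 * L ^ 3 * Real.exp (-L ^ b) ≤ 1 := by
          have h3 : (r : ℝ) ^ 6 = Real.exp (6 * Real.log r) := by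
            rw [mul_comm, Real.exp_mul, Real.exp_log hr0]
            norm_cast
          have h4 : L ^ 3 = Real.exp (3 * Real.log L) := by
            rw [mul_comm, Real.exp_mul, Real.exp_log hL0]
            norm_cast
          rw [h3, h4, ← Real.exp_add, ← Real.exp_add, Real.exp_le_one_iff]
          linarith
        calc (n : ℝ) * Real.exp (-L ^ b) ≤
              (ohdeg n x * ((r : ℝ) ^ 6 * L ^ 3)) * Real.exp (-L ^ b) :=
              mul_le_mul_of_nonneg_right h1 (Real.exp_pos _).le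
          _ = ohdeg n x * ((r : ℝ) ^ 6 * L ^ 3 * Real.exp (-L ^ b)) := by ring
          _ ≤ ohdeg n x * 1 := mul_le_mul_of_nonneg_left h2 (Nat.cast_nonneg _)
          _ = ohdeg n x := mul_one _

/-- `y exp (-(log y)^a)` is increasing -/
theorem phi_mono (a s L : ℝ) (ha : a < 1) (hs : 1 ≤ s) (hL : s ≤ L) : s - s ^ a ≤ L - L ^ a := by
  have hs0 : 0 < s := by linarith
  have hL0 : 0 < L := by linarith
  have h1 : L ^ a ≤ s ^ a * (L / s) := by
    have h2 : L ^ a = s ^ a * (L / s) ^ a := by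
      rw [← Real.mul_rpow hs0.le (by positivity)]
      congr 1
      field_simp
    rw [h2]
    apply mul_le_mul_of_nonneg_left _ (Real.rpow_nonneg hs0.le _)
    have h3 : 1 ≤ L / s := by
      rw [le_div_iff₀ hs0]
      linarith
    calc (L / s) ^ a ≤ (L / s) ^ (1 : ℝ) := Real.rpow_le_rpow_of_exponent_le h3 ha.le
      _ = L / s := Real.rpow_one _
  have h4 : s ^ a ≤ s := by
    calc s ^ a ≤ s ^ (1 : ℝ) := Real.rpow_le_rpow_of_exponent_le hs ha.le
      _ = s := Real.rpow_one _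
  have h5 : s ^ a * (L / s) - s ^ a = (s ^ a / s) * (L - s) := by
    field_simp
  have h6 : s ^ a / s ≤ 1 := by
    rw [div_le_one hs0]
    exact h4
  have h7 : (s ^ a / s) * (L - s) ≤ 1 * (L - s) := mul_le_mul_of_nonneg_right h6 (by linarith)
  linarith

theorem phi_exp (n : ℕ) (hn : 0 < n) (a : ℝ) :
    (n : ℝ) * Real.exp (-(Real.log n) ^ a) = Real.exp (Real.log n - (Real.log n) ^ a) := by
  have hnR : (0 : ℝ) < n := by exact_mod_cast hn
  rw [sub_eq_add_neg, Real.exp_add, Real.exp_log hnR]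

/-- the powers of two -/
theorem clog_bounds (x : ℕ) (hx : 3 ≤ x) : x ≤ 2 ^ Nat.clog 2 x ∧ 2 ^ Nat.clog 2 x < 2 * x ∧
    (Nat.clog 2 x : ℝ) + 1 ≤ 4 * Real.log x := by
  have h1 : x ≤ 2 ^ Nat.clog 2 x := Nat.le_pow_clog (by norm_num) x
  have h2 : 2 ^ Nat.clog 2 x < 2 * x := by
    have h3 := Nat.pow_pred_clog_lt_self (b := 2) (by norm_num) (x := x) (by omega)
    have h4 : 0 < Nat.clog 2 x := Nat.clog_pos (by norm_num) (by omega)
    obtain ⟨k, hk⟩ : ∃ k, Nat.clog 2 x = k + 1 := ⟨Nat.clog 2 x - 1, by omega⟩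
    rw [hk] at h3 ⊢
    simp only [Nat.pred_succ] at h3
    rw [pow_succ]
    omega
  refine ⟨h1, h2, ?_⟩
  have hxR : (3 : ℝ) ≤ x := by exact_mod_cast hx
  have h5 : ((2 : ℝ) ^ Nat.clog 2 x) < 2 * x := by exact_mod_cast h2
  have h6 : (Nat.clog 2 x : ℝ) * Real.log 2 ≤ Real.log 2 + Real.log x := by
    rw [← Real.log_pow, ← Real.log_mul (by norm_num) (by linarith)]
    exact Real.log_le_log (by positivity) h5.le
  have h7 := Real.log_two_gt_d9
  have h8 : 1 ≤ Real.log x := by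
    rw [Real.le_log_iff_exp_le (by linarith)]
    have := Real.exp_one_lt_d9
    linarith
  nlinarith

/-- **A fixed thin set of halved vertices**, outside of which the degrees at the own scale are large. -/
theorem fixed (a b : ℝ) (ha : 0 < a) (hab : a < b) (hb : b < 1 / 2) (N : ℕ) : ∃ (F : Set ℕ) (n0 : ℕ),
    (∀ x : ℕ, n0 ≤ x → ((F ∩ Set.Icc 0 x).ncard : ℝ) ≤ x * Real.exp (-(Real.log x) ^ a)) ∧
    ∀ x : ℕ, x ∉ F → N ≤ x ∧ x * Real.exp (-(Real.log x) ^ b) ≤
      (((Icc 1 (x - 1)).filter (fun Y => hadj x Y)).card : ℝ) := by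
  classical
  set a' := a + (b - a) / 3 with ha'
  set b' := a + 2 * (b - a) / 3 with hb'
  have h1 : a < a' := by rw [ha']; linarith
  have h2 : a' < b' := by rw [ha', hb']; linarith
  have h3 : b' < b := by rw [hb']; linarith
  obtain ⟨n1, hn1⟩ := main_own a' b' (by linarith) h2 (by linarith)
  choose! B hB1 hB2 hB3 using hn1
  have hev : ∀ᶠ y : ℝ in Filter.atTop, 2 * y ^ a + 0 ≤ y ^ a' ∧ 1 * Real.log y + 5 ≤ y ^ a ∧
      2 * y ^ b' + 0 ≤ y ^ b ∧ 1 ≤ y := by
    filter_upwards [PA_pow a' a 2 0 ha h1, PA_log a 1 5 ha, PA_pow b b' 2 0 (by linarith) h3,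
      Filter.eventually_ge_atTop (1 : ℝ)] with y h4 h5 h6 h7
    exact ⟨h4, h5, h6, h7⟩
  obtain ⟨n2, hn2⟩ := Filter.eventually_atTop.1
    ((Real.tendsto_log_atTop.comp tendsto_natCast_atTop_atTop).eventually hev)
  set N1 := max (max n1 n2) (max N 3) with hN1
  -- the second threshold
  have hev2 : ∀ᶠ y : ℝ in Filter.atTop, 1 * y ^ a + Real.log (2 * N1) ≤ y ^ (1 : ℝ) :=
    PA_pow 1 a 1 _ ha (by linarith)
  obtain ⟨n3, hn3⟩ := Filter.eventually_atTop.1
    ((Real.tendsto_log_atTop.comp tendsto_natCast_atTop_atTop).eventually hev2)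
  refine ⟨{x | x < N1 ∨ x ∈ B (2 ^ Nat.clog 2 x)}, max N1 n3, fun x hx => ?_, fun x hx => ?_⟩
  · -- counting
    have hxN : N1 ≤ x := by omega
    have hx3 : 3 ≤ x := by omega
    obtain ⟨k1, k2, k3⟩ := clog_bounds x hx3
    obtain ⟨e1, e2, e3, e4⟩ := hn2 x (by omega)
    have e5 := hn3 x (by omega)
    simp only [Function.comp, add_zero, one_mul, Real.rpow_one] at e1 e2 e3 e4 e5
    have hxR : (0 : ℝ) < x := by exact_mod_cast (by omega : 0 < x)
    set L := Real.log x with hL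
    set J := Nat.clog 2 x with hJ
    set I := (range (J + 1)).filter (fun j => N1 ≤ 2 ^ j) with hI
    have hsub : {x | x < N1 ∨ x ∈ B (2 ^ Nat.clog 2 x)} ∩ Set.Icc 0 x ⊆
        ((range N1 ∪ I.biUnion (fun j => B (2 ^ j)) : Finset ℕ) : Set ℕ) := by
      rintro y ⟨hy, hyx⟩
      rw [mem_coe, mem_union, mem_range, mem_biUnion]
      by_cases hyN : y < N1
      · exact Or.inl hyN
      · right
        have hy2 : y ∈ B (2 ^ Nat.clog 2 y) := hy.resolve_left hyN
        refine ⟨Nat.clog 2 y, ?_, hy2⟩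
        rw [hI, mem_filter, mem_range]
        refine ⟨Nat.lt_succ_of_le (Nat.clog_mono_right 2 hyx.2), ?_⟩
        exact (not_lt.1 hyN).trans (Nat.le_pow_clog (by norm_num) y)
    have hc1 : ({x | x < N1 ∨ x ∈ B (2 ^ Nat.clog 2 x)} ∩ Set.Icc 0 x).ncard ≤
        N1 + ∑ j ∈ I, (B (2 ^ j)).card := by
      refine (Set.ncard_le_ncard hsub (finite_toSet _)).trans ?_
      rw [Set.ncard_coe_finset]
      refine (card_union_le _ _).trans ?_
      rw [card_range]
      exact Nat.add_le_add_left card_biUnion_le _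
    have hBj : ∀ j ∈ I, ((B (2 ^ j)).card : ℝ) ≤ x * Real.exp (-L ^ a') := by
      intro j hj
      rw [hI, mem_filter, mem_range] at hj
      have hj1 : n1 ≤ 2 ^ j := by omega
      have hj3 : 3 ≤ 2 ^ j := by omega
      have hj3R : (3 : ℝ) ≤ ((2 ^ j : ℕ) : ℝ) := by exact_mod_cast hj3
      have hjJ : 2 ^ j ≤ 2 ^ J := Nat.pow_le_pow_right (by norm_num) (by omega)
      have hjJR : ((2 ^ j : ℕ) : ℝ) ≤ ((2 ^ J : ℕ) : ℝ) := by exact_mod_cast hjJ
      have hs1 : 1 ≤ Real.log ((2 ^ j : ℕ) : ℝ) := by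
        rw [Real.le_log_iff_exp_le (by linarith)]
        have := Real.exp_one_lt_d9
        linarith
      have hs2 : Real.log ((2 ^ j : ℕ) : ℝ) ≤ Real.log ((2 ^ J : ℕ) : ℝ) :=
        Real.log_le_log (by linarith) hjJR
      have hphi := phi_mono a' _ _ (by linarith) hs1 hs2
      have h4 := hB2 (2 ^ j) hj1
      have h5 : ((2 ^ j : ℕ) : ℝ) * Real.exp (-(Real.log ((2 ^ j : ℕ) : ℝ)) ^ a') ≤
          ((2 ^ J : ℕ) : ℝ) * Real.exp (-(Real.log ((2 ^ J : ℕ) : ℝ)) ^ a') := by
        rw [phi_exp _ (by positivity), phi_exp _ (by positivity)]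
        exact Real.exp_le_exp.2 hphi
      have h6 : ((2 ^ J : ℕ) : ℝ) ≤ 2 * x := by exact_mod_cast k2.le
      have h7 : L ≤ Real.log ((2 ^ J : ℕ) : ℝ) := Real.log_le_log hxR (by exact_mod_cast k1)
      have h8 : L ^ a' ≤ (Real.log ((2 ^ J : ℕ) : ℝ)) ^ a' :=
        Real.rpow_le_rpow (by linarith) h7 (by linarith)
      have h9 : Real.exp (-(Real.log ((2 ^ J : ℕ) : ℝ)) ^ a') ≤ Real.exp (-L ^ a') :=
        Real.exp_le_exp.2 (by linarith)
      have h10 : ((2 ^ J : ℕ) : ℝ) * Real.exp (-(Real.log ((2 ^ J : ℕ) : ℝ)) ^ a') ≤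
          2 * x * Real.exp (-L ^ a') :=
        mul_le_mul h6 h9 (Real.exp_pos _).le (by positivity)
      linarith
    have hIc : (I.card : ℝ) ≤ 4 * L := by
      refine le_trans ?_ k3
      have : I.card ≤ J + 1 := (card_filter_le _ _).trans (by rw [card_range])
      exact_mod_cast this
    have hsum : (∑ j ∈ I, ((B (2 ^ j)).card : ℝ)) ≤ 4 * L * (x * Real.exp (-L ^ a')) := by
      refine (sum_le_sum hBj).trans ?_
      rw [sum_const, nsmul_eq_mul]
      exact mul_le_mul_of_nonneg_right hIc (by positivity)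
    have hc2 : (({x | x < N1 ∨ x ∈ B (2 ^ Nat.clog 2 x)} ∩ Set.Icc 0 x).ncard : ℝ) ≤
        N1 + ∑ j ∈ I, ((B (2 ^ j)).card : ℝ) := by exact_mod_cast hc1
    have hN1R : (0 : ℝ) < N1 := by
      have : 0 < N1 := by omega
      exact_mod_cast this
    -- the first part
    have hp1 : (N1 : ℝ) ≤ x * Real.exp (-L ^ a) / 2 := by
      rw [phi_exp x (by omega) a, le_div_iff₀ (by norm_num)]
      have h4 : (N1 : ℝ) * 2 = Real.exp (Real.log (2 * N1)) := by
        rw [Real.exp_log (by positivity)]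
        ring
      rw [h4]
      apply Real.exp_le_exp.2
      linarith
    -- the second part
    have hp2 : 4 * L * (x * Real.exp (-L ^ a')) ≤ x * Real.exp (-L ^ a) / 2 := by
      have hL0 : 0 < L := by linarith
      have h4 : 8 * L * Real.exp (-L ^ a') ≤ Real.exp (-L ^ a) := by
        have h5 : 8 * L ≤ Real.exp (Real.log L + 5) := by
          rw [Real.exp_add, Real.exp_log hL0]
          have h6 : (8 : ℝ) ≤ Real.exp 5 := by
            have h7 : Real.exp 5 = Real.exp 1 ^ 5 := by rw [← Real.exp_nat_mul]; norm_num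
            have h8 := Real.exp_one_gt_d9
            have h9 : (2 : ℝ) ^ 5 ≤ Real.exp 1 ^ 5 := pow_le_pow_left₀ (by norm_num) (by linarith) 5
            rw [h7]
            linarith
          nlinarith
        calc 8 * L * Real.exp (-L ^ a') ≤ Real.exp (Real.log L + 5) * Real.exp (-L ^ a') :=
              mul_le_mul_of_nonneg_right h5 (Real.exp_pos _).le
          _ = Real.exp (Real.log L + 5 - L ^ a') := by rw [← Real.exp_add]; rfl
          _ ≤ Real.exp (-L ^ a) := Real.exp_le_exp.2 (by linarith)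
      have h5 := mul_le_mul_of_nonneg_left h4 hxR.le
      linarith
    linarith
  · -- degrees
    simp only [Set.mem_ofPred_eq, not_or, not_lt] at hx
    obtain ⟨hxN, hxB⟩ := hx
    have hx3 : 3 ≤ x := by omega
    obtain ⟨k1, k2, k3⟩ := clog_bounds x hx3
    obtain ⟨e1, e2, e3, e4⟩ := hn2 x (by omega)
    simp only [Function.comp, add_zero, one_mul, Real.rpow_one] at e1 e2 e3 e4
    have hxR : (0 : ℝ) < x := by exact_mod_cast (by omega : 0 < x)
    set n := 2 ^ Nat.clog 2 x with hn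
    set L := Real.log x with hL
    refine ⟨by omega, ?_⟩
    have h4 := hB3 n (by omega) x (mem_Icc.2 ⟨by omega, k1⟩) hxB
    have h5 : ohdeg n x ≤ ((Icc 1 (x - 1)).filter (fun Y => hadj x Y)).card := by
      unfold ohdeg
      apply card_le_card
      intro Y hY
      rw [mem_filter, mem_Icc] at hY ⊢
      have := hY.2.2 k2
      exact ⟨⟨hY.1.1, by omega⟩, hY.2.1⟩
    have h6 : (ohdeg n x : ℝ) ≤ (((Icc 1 (x - 1)).filter (fun Y => hadj x Y)).card : ℝ) := by
      exact_mod_cast h5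
    refine le_trans ?_ (h4.trans h6)
    have h7 : (x : ℝ) ≤ n := by exact_mod_cast k1
    have h8 : (n : ℝ) ≤ 2 * x := by exact_mod_cast k2.le
    have h9 : Real.log n ≤ 2 * L := by
      have h10 := Real.log_le_log (by linarith) h8
      rw [Real.log_mul (by norm_num) (by linarith)] at h10
      have := Real.log_two_lt_d9
      linarith
    have hln0 : 0 ≤ Real.log n := by
      have : L ≤ Real.log n := Real.log_le_log hxR h7
      linarith
    have h10 : (Real.log n) ^ b' ≤ L ^ b := by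
      calc (Real.log n) ^ b' ≤ (2 * L) ^ b' := Real.rpow_le_rpow hln0 h9 (by linarith)
        _ = 2 ^ b' * L ^ b' := Real.mul_rpow (by norm_num) (by linarith)
        _ ≤ 2 * L ^ b' := by
            apply mul_le_mul_of_nonneg_right _ (Real.rpow_nonneg (by linarith) _)
            calc (2 : ℝ) ^ b' ≤ 2 ^ (1 : ℝ) := Real.rpow_le_rpow_of_exponent_le (by norm_num) (by linarith)
              _ = 2 := Real.rpow_one _
        _ ≤ L ^ b := e3
    exact mul_le_mul h7 (Real.exp_le_exp.2 (by linarith)) (Real.exp_pos _).le (by linarith)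

end Pool.Agent.Lib.H18P
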