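import Pool.Agent.Lib.H18P.OM
import Pool.Agent.Lib.H18GB.Transfer

/-!
# Project H18P (MP_443e5f_co): the final statement for both families of graphs
-/

open Finset Pool.Agent.Lib.H18GB Pool.Agent.Lib.GoldbachGraph Pool.Agent.Lib.H18E Pool.Agent.Goldbach

namespace Pool.Agent.Lib.H18P

/-- The number of representations of `u` as an ordered sum of two primes. -/
def reps (u : ℕ) : ℕ := ((range (u + 1)).filter (fun p => p.Prime ∧ (u - p).Prime)).card

theorem reps_le (x : ℕ) :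
    reps (2 * x) ≤ 2 * ((Icc 1 (x - 1)).filter (fun Y => hadj x Y)).card + 3 := by
  classical
  set D := (Icc 1 (x - 1)).filter (fun Y => hadj x Y) with hD
  have hsub : (range (2 * x + 1)).filter (fun p => p.Prime ∧ (2 * x - p).Prime) ⊆
      (D.image (fun Y => x - Y) ∪ D.image (fun Y => x + Y)) ∪ {x, 2, 2 * x - 2} := by
    intro p hp
    rw [mem_filter, mem_range] at hp
    obtain ⟨hp1, hp2, hp3⟩ := hp
    have hp2' := hp2.two_le
    have hp3' := hp3.two_le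
    rw [mem_union, mem_union, mem_image, mem_image, mem_insert, mem_insert, mem_singleton]
    by_cases h1 : p = x
    · right; left; exact h1
    by_cases h2 : p = 2
    · right; right; left; exact h2
    by_cases h3 : 2 * x - p = 2
    · right; right; right; omega
    have ho : Odd p := hp2.odd_of_ne_two h2
    have ho' : Odd (2 * x - p) := hp3.odd_of_ne_two h3
    left
    rcases lt_or_gt_of_ne h1 with h | h
    · left
      refine ⟨x - p, ?_, by omega⟩
      rw [hD, mem_filter, mem_Icc]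
      have e1 : x + (x - p) = 2 * x - p := by omega
      have e2 : Nat.dist x (x - p) = p := by unfold Nat.dist; omega
      refine ⟨⟨by omega, by omega⟩, ?_, ?_, ?_, ?_⟩
      · rw [e1]; exact hp3
      · rw [e1]; exact ho'
      · rw [e2]; exact hp2
      · rw [e2]; exact ho
    · right
      refine ⟨p - x, ?_, by omega⟩
      rw [hD, mem_filter, mem_Icc]
      have e1 : x + (p - x) = p := by omega
      have e2 : Nat.dist x (p - x) = 2 * x - p := by unfold Nat.dist; omega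
      refine ⟨⟨by omega, by omega⟩, ?_, ?_, ?_, ?_⟩
      · rw [e1]; exact hp2
      · rw [e1]; exact ho
      · rw [e2]; exact hp3
      · rw [e2]; exact ho'
  have h1 := card_le_card hsub
  have h2 := card_union_le (D.image (fun Y => x - Y) ∪ D.image (fun Y => x + Y)) {x, 2, 2 * x - 2}
  have h3 := card_union_le (D.image (fun Y => x - Y)) (D.image (fun Y => x + Y))
  have h4 : (D.image (fun Y => x - Y)).card ≤ D.card := card_image_le
  have h5 : (D.image (fun Y => x + Y)).card ≤ D.card := card_image_le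
  have h6 : ({x, 2, 2 * x - 2} : Finset ℕ).card ≤ 3 := card_le_three
  unfold reps
  omega

theorem le_reps (x : ℕ) : ((Icc 1 (x - 1)).filter (fun Y => hadj x Y)).card ≤ reps (2 * x) := by
  classical
  unfold reps
  refine card_le_card_of_injOn (fun Y => x - Y) ?_ ?_
  · intro Y hY
    rw [mem_coe, mem_filter, mem_Icc] at hY
    obtain ⟨⟨h1, h2⟩, h3, h4, h5, h6⟩ := hY
    have e1 : Nat.dist x Y = x - Y := by unfold Nat.dist; omega
    rw [e1] at h5
    have e2 : 2 * x - (x - Y) = x + Y := by omega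
    have e3 : x - Y ∈ (range (2 * x + 1)).filter (fun p => p.Prime ∧ (2 * x - p).Prime) := by
      rw [mem_filter, mem_range, e2]
      exact ⟨by omega, h5, h3⟩
    exact e3
  · intro Y hY Y' hY' h
    rw [mem_coe, mem_filter, mem_Icc] at hY hY'
    simp only at h
    omega

/-- Thresholds: everything which is needed about `m exp (-(log m)^b)`. -/
theorem thr_facts (b c : ℝ) (hb0 : 0 < b) (hbc : b < c) (hc : c < 1) : ∃ n0 : ℕ, 1 ≤ n0 ∧ ∀ m : ℕ, n0 ≤ m →
    4 + m * Real.exp (-(Real.log m) ^ c) / 2 < m * Real.exp (-(Real.log m) ^ b) ∧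
    3 + m * Real.exp (-(Real.log m) ^ c) < (2 * m : ℕ) * Real.exp (-(Real.log (2 * m : ℕ)) ^ b) ∧
    (2 * m : ℕ) * Real.exp (-(Real.log (2 * m : ℕ)) ^ c) ≤ m * Real.exp (-(Real.log m) ^ b) := by
  have hev : ∀ᶠ y : ℝ in Filter.atTop, 2 * y ^ b + 4 ≤ y ^ c ∧ 1 * y ^ c + 4 ≤ y ^ (1 : ℝ) ∧ 1 ≤ y := by
    filter_upwards [PA_pow c b 2 4 hb0 hbc, PA_pow 1 c 1 4 (by linarith) hc,
      Filter.eventually_ge_atTop (1 : ℝ)] with y h1 h2 h3
    exact ⟨h1, h2, h3⟩
  obtain ⟨n0, hn0⟩ := Filter.eventually_atTop.1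
    ((Real.tendsto_log_atTop.comp tendsto_natCast_atTop_atTop).eventually hev)
  refine ⟨max n0 1, le_max_right _ _, fun m hm => ?_⟩
  obtain ⟨h1, h2, h3⟩ := hn0 m (by omega)
  simp only [Function.comp, one_mul, Real.rpow_one] at h1 h2 h3
  have hm1 : 0 < m := by omega
  have hmR : (0 : ℝ) < m := by exact_mod_cast hm1
  have h2m : ((2 * m : ℕ) : ℝ) = 2 * m := by push_cast; ring
  rw [h2m]
  have hl2 : Real.log (2 * m) = Real.log 2 + Real.log m := Real.log_mul (by norm_num) hmR.ne'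
  have hlb := Real.log_two_gt_d9
  have hlu := Real.log_two_lt_d9
  set L := Real.log m with hL
  have hL0 : 0 < L := by linarith
  have hT0 : 0 < (m : ℝ) * Real.exp (-L ^ c) := by positivity
  -- the threshold is large
  have hbig : 8 ≤ (m : ℝ) * Real.exp (-L ^ c) := by
    rw [hL, phi_exp m hm1 c, ← hL]
    have h4 : (8 : ℝ) ≤ Real.exp 4 := by
      have h7 : Real.exp 4 = Real.exp 1 ^ 4 := by rw [← Real.exp_nat_mul]; norm_num
      have h8 := Real.exp_one_gt_d9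
      have h9 : (2 : ℝ) ^ 4 ≤ Real.exp 1 ^ 4 := pow_le_pow_left₀ (by norm_num) (by linarith) 4
      rw [h7]
      linarith
    exact h4.trans (Real.exp_le_exp.2 (by linarith))
  have he4 : (2 : ℝ) ≤ Real.exp 4 := by linarith [Real.add_one_le_exp 4]
  -- the comparison
  have hcmp : ∀ z : ℝ, z ≤ 2 * L ^ b → 2 * Real.exp (-L ^ c) ≤ Real.exp (-z) := by
    intro z hz
    calc 2 * Real.exp (-L ^ c) ≤ Real.exp 4 * Real.exp (-L ^ c) :=
          mul_le_mul_of_nonneg_right he4 (Real.exp_pos _).le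
      _ = Real.exp (4 - L ^ c) := by rw [← Real.exp_add]; rfl
      _ ≤ Real.exp (-z) := Real.exp_le_exp.2 (by linarith)
  have hlb0 : 0 ≤ L ^ b := Real.rpow_nonneg hL0.le _
  have h2b : (Real.log (2 * m)) ^ b ≤ 2 * L ^ b := by
    rw [hl2]
    calc (Real.log 2 + L) ^ b ≤ (2 * L) ^ b := Real.rpow_le_rpow (by linarith) (by linarith) hb0.le
      _ = 2 ^ b * L ^ b := Real.mul_rpow (by norm_num) hL0.le
      _ ≤ 2 * L ^ b := by
          apply mul_le_mul_of_nonneg_right _ hlb0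
          calc (2 : ℝ) ^ b ≤ 2 ^ (1 : ℝ) := Real.rpow_le_rpow_of_exponent_le (by norm_num) (by linarith)
            _ = 2 := Real.rpow_one _
  have k1 : 2 * ((m : ℝ) * Real.exp (-L ^ c)) ≤ m * Real.exp (-L ^ b) := by
    have := mul_le_mul_of_nonneg_left (hcmp (L ^ b) (by linarith)) hmR.le
    linarith
  have k2 : 2 * ((m : ℝ) * Real.exp (-L ^ c)) ≤ m * Real.exp (-(Real.log (2 * m)) ^ b) := by
    have := mul_le_mul_of_nonneg_left (hcmp _ h2b) hmR.le
    linarith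
  refine ⟨by linarith, ?_, ?_⟩
  · have : (m : ℝ) * Real.exp (-(Real.log (2 * m)) ^ b) ≤ 2 * m * Real.exp (-(Real.log (2 * m)) ^ b) := by
      apply mul_le_mul_of_nonneg_right _ (Real.exp_pos _).le
      linarith
    linarith
  · have h5 : L ^ c ≤ (Real.log (2 * m)) ^ c := Real.rpow_le_rpow hL0.le (by linarith) (by linarith)
    have h6 : Real.exp (-(Real.log (2 * m)) ^ c) ≤ Real.exp (-L ^ c) := Real.exp_le_exp.2 (by linarith)
    have h7 := mul_le_mul_of_nonneg_left h6 hmR.le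
    linarith

/-- **The core**, for both families of graphs. -/
theorem core_main (b c : ℝ) (hb0 : 0 < b) (hbc : b < c) (hc : c < 1 / 2) : ∃ n0 : ℕ, ∀ n : ℕ, n0 ≤ n →
    ∀ V S : Set ℕ, (∀ a ∈ V, Even a ∧ a ≤ 2 * n) → (∀ x ∈ Finset.Icc 1 n, 2 * x ∈ V) →
    (∀ m, m.Prime → Odd m → m < 2 * n → m ∈ S) → (∀ m ∈ S, m = 1 ∨ (m.Prime ∧ Odd m)) →
    ∃ K : Set V, (∀ u ∈ K, ∀ v ∈ K, (halfGraph V S).edist u v ≤ 7) ∧
      ({u : V | ¬ ∃ z ∈ K, (halfGraph V S).edist u z ≤ 1}.ncard : ℝ) ≤ n * Real.exp (-(Real.log n) ^ b) ∧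
      (∀ u : V, n * Real.exp (-(Real.log n) ^ b) ≤ ((halfGraph V S).neighborSet u).ncard →
        ∃ z ∈ K, (halfGraph V S).edist u z ≤ 2) ∧
      ((0 : ℕ) ∈ V → ∀ u : V, (u : ℕ) = 0 ∨ (∃ p : ℕ, p.Prime ∧ Odd p ∧ (u : ℕ) = 2 * p) →
        ∃ z ∈ K, (halfGraph V S).edist u z ≤ 2) ∧
      ∀ u : V, (∃ x m : ℕ, (u : ℕ) = 2 * x ∧ 1 ≤ x ∧ x ≤ m ∧ n0 ≤ m ∧ m ≤ n ∧
        m * Real.exp (-(Real.log m) ^ c) / 2 < hdeg m x) → ∃ z ∈ K, (halfGraph V S).edist u z ≤ 12 := by
  classical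
  obtain ⟨n0, g, hg, hjmp⟩ := levels c (hb0.trans hbc) hc
  obtain ⟨n1, hn11, hn1⟩ := thr_facts b c hb0 hbc (by linarith)
  refine ⟨max n0 n1, fun n hn V S hV hV2 hS hS' => ?_⟩
  have hfin : Finite V := finite_of_le hV
  obtain ⟨hg1, hg7, ⟨q, hqg, hq2, hq3⟩, ⟨B, hB, hB1⟩, hgd⟩ := hg n (by omega)
  obtain ⟨t1, t2, t3⟩ := hn1 n (by omega)
  have hq1 : q ∈ Icc 1 n := hg1 hqg
  have hqS : q ∈ S := hS q hq2 hq3 (by rw [mem_Icc] at hq1; omega)
  have h0q : ∀ h0 : (0 : ℕ) ∈ V, (halfGraph V S).Adj ⟨0, h0⟩ ⟨2 * q, hV2 q hq1⟩ := by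
    intro h0
    rw [halfGraph_adj_iff (x := 0) (y := q) rfl rfl]
    refine ⟨hq2.ne_zero.symm, by simpa using hqS, by simpa using hqS⟩
  set K : Set V := {u : V | ∃ z ∈ g n, (u : ℕ) = 2 * z} with hK
  have hmemK : ∀ z (hz : z ∈ g n), (⟨2 * z, hV2 z (hg1 hz)⟩ : V) ∈ K := fun z hz => ⟨z, hz, rfl⟩
  have hzero1 : ∀ u : V, (u : ℕ) = 0 → ∃ z ∈ K, (halfGraph V S).edist u z ≤ 1 := by
    rintro ⟨u, hu⟩ hu0
    simp only at hu0
    subst hu0
    refine ⟨_, hmemK q hqg, ?_⟩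
    refine (SimpleGraph.edist_le (.cons (h0q hu) .nil)).trans ?_
    norm_num
  refine ⟨K, ?_, ?_, ?_, ?_, ?_⟩
  · rintro ⟨u, hu⟩ ⟨x, hx, hux⟩ ⟨v, hv⟩ ⟨y, hy, hvy⟩
    simp only at hux hvy
    subst hux
    subst hvy
    exact edist_transfer hV2 hS (hg1 hx) (hg1 hy) (k := 7) (hg7 x hx y hy)
  · have h1 : ({u : V | ¬ ∃ z ∈ K, (halfGraph V S).edist u z ≤ 1}).ncard ≤ B.card := by
      rw [← Set.ncard_coe_finset]
      apply Set.ncard_le_ncard_of_injOn (fun b : V => (b : ℕ) / 2)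
      · rintro ⟨b, hb⟩ hbK
        obtain ⟨⟨x, hx'⟩, hbn⟩ := hV b hb
        have hbx : b = 2 * x := by omega
        subst hbx
        simp only [Nat.mul_div_cancel_left _ (by norm_num : 0 < 2), Finset.mem_coe]
        by_contra hxB
        apply hbK
        by_cases hx0 : x = 0
        · exact hzero1 _ (by simp [hx0])
        · have hx1 : x ∈ Icc 1 n := mem_Icc.2 ⟨by omega, by omega⟩
          obtain ⟨z, hz, hze⟩ := hB1 x hx1 hxB
          exact ⟨_, hmemK z hz, edist_transfer hV2 hS hx1 (hg1 hz) (k := 1) hze⟩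
      · rintro ⟨b, hb⟩ - ⟨b', hb'⟩ - hbb
        have h1 := (hV b hb).1
        have h2 := (hV b' hb').1
        simp only at hbb
        ext
        simp only
        obtain ⟨k, hk⟩ := h1
        obtain ⟨l, hl⟩ := h2
        omega
    have h2 : (({u : V | ¬ ∃ z ∈ K, (halfGraph V S).edist u z ≤ 1}).ncard : ℝ) ≤ B.card := by
      exact_mod_cast h1
    linarith
  · rintro ⟨u, hu⟩ hdeg1
    obtain ⟨⟨x, hx'⟩, hbn⟩ := hV u hu
    have hbx : u = 2 * x := by omega
    subst hbx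
    by_cases hx0 : x = 0
    · obtain ⟨z, hz, hze⟩ := hzero1 ⟨2 * x, hu⟩ (by simp [hx0])
      exact ⟨z, hz, hze.trans (by norm_num)⟩
    · have hx2 : x ∈ Icc 1 n := mem_Icc.2 ⟨by omega, by omega⟩
      have h1 : (((halfGraph V S).neighborSet ⟨2 * x, hu⟩).ncard : ℝ) ≤ hdeg n x + 4 := by
        exact_mod_cast deg_le hV hS' x hu
      obtain ⟨z, hz, hze⟩ := hgd x hx2 (by linarith)
      exact ⟨_, hmemK z hz, edist_transfer hV2 hS hx2 (hg1 hz) (k := 2) hze⟩
  · rintro h0 ⟨u, hu⟩ (h | ⟨p, hp, hodd, hup⟩)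
    · obtain ⟨z, hz, hze⟩ := hzero1 ⟨u, hu⟩ h
      exact ⟨z, hz, hze.trans (by norm_num)⟩
    · simp only at hup
      subst hup
      have hpn : p < 2 * n := by
        have := (hV _ hu).2
        have := hp.pos
        omega
      have hpS : p ∈ S := hS p hp hodd hpn
      have hadj1 : (halfGraph V S).Adj ⟨2 * p, hu⟩ ⟨0, h0⟩ := by
        rw [halfGraph_adj_iff (x := p) (y := 0) rfl rfl]
        refine ⟨hp.ne_zero, by simpa using hpS, by simpa using hpS⟩
      refine ⟨_, hmemK q hqg, ?_⟩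
      refine (SimpleGraph.edist_le (.cons hadj1 (.cons (h0q h0) .nil))).trans ?_
      norm_num
  · rintro ⟨u, hu⟩ ⟨x, m, hux, hx1, hxm, hm0, hmn, hd⟩
    simp only at hux
    subst hux
    obtain ⟨-, -, -, -, hgm⟩ := hg m (by omega)
    obtain ⟨z, hz, hze⟩ := hgm x (mem_Icc.2 ⟨hx1, hxm⟩) hd
    obtain ⟨w, hw, hwe⟩ := hjmp n m (by omega) hmn z hz
    have h1 : (HG n).edist x w ≤ 12 := by
      calc (HG n).edist x w ≤ (HG n).edist x z + (HG n).edist z w := SimpleGraph.edist_triangle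
        _ ≤ 2 + 10 := add_le_add ((edist_mono hmn x z).trans hze) hwe
        _ = 12 := by norm_num
    exact ⟨_, hmemK w hw, edist_transfer hV2 hS (mem_Icc.2 ⟨hx1, hxm.trans hmn⟩) (hg1 hw) (k := 12) h1⟩

end Pool.Agent.Lib.H18P
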