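import Pool.Agent.Lib.H18P.P3

/-!
# Project H18P (MP_443e5f_co): definitions for the final statement, and Q1 under a Goldbach hypothesis
-/

open Finset Pool.Agent.Lib.H18GB Pool.Agent.Lib.GoldbachGraph Pool.Agent.Lib.H18E Pool.Agent.Goldbach

namespace Pool.Agent.Lib.H18P

/-- `u` is rich: for some scale `m` with `n0 ≤ m ≤ n` it is a vertex of `G m` with at least
`m exp (-(log m)^b)` neighbours in `G m`, or `u ≥ n0` has at least `u exp (-(log u)^b)` representations as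
an (ordered) sum of two primes. -/
def Rich (V : ℕ → Set ℕ) (G : ∀ n, SimpleGraph (V n)) (b : ℝ) (n0 n u : ℕ) : Prop :=
  (∃ m : ℕ, n0 ≤ m ∧ m ≤ n ∧ ∃ h : u ∈ V m,
    (m : ℝ) * Real.exp (-(Real.log m) ^ b) ≤ ((G m).neighborSet ⟨u, h⟩).ncard) ∨
  (n0 ≤ u ∧ (u : ℝ) * Real.exp (-(Real.log u) ^ b) ≤ reps u)

/-- `K` is a core of `G n`: its elements are pairwise at distance at most `7`, all but `n exp (-(log n)^b)`
vertices are at distance at most `1` from `K`, all vertices of degree at least `n exp (-(log n)^b)` are at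
distance at most `2` from `K`, and all rich vertices at distance at most `12`. -/
structure Core (V : ℕ → Set ℕ) (G : ∀ n, SimpleGraph (V n)) (b : ℝ) (n0 n : ℕ) (K : Set (V n)) : Prop where
  core : ∀ u ∈ K, ∀ v ∈ K, (G n).edist u v ≤ 7
  most : ({u : V n | ¬ ∃ z ∈ K, (G n).edist u z ≤ 1}.ncard : ℝ) ≤ n * Real.exp (-(Real.log n) ^ b)
  large : ∀ u : V n, (n : ℝ) * Real.exp (-(Real.log n) ^ b) ≤ ((G n).neighborSet u).ncard →
    ∃ z ∈ K, (G n).edist u z ≤ 2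
  rich : ∀ u : V n, Rich V G b n0 n u → ∃ z ∈ K, (G n).edist u z ≤ 12

/-- Two vertices at distance at most `12` from a core. -/
theorem Core.pair {V : ℕ → Set ℕ} {G : ∀ n, SimpleGraph (V n)} {b : ℝ} {n0 n : ℕ} {K : Set (V n)}
    (h : Core V G b n0 n K) {u v : V n} (hu : ∃ z ∈ K, (G n).edist u z ≤ 12)
    (hv : ∃ z ∈ K, (G n).edist v z ≤ 12) : (G n).edist u v ≤ 31 := by
  obtain ⟨z, hz, huz⟩ := hu
  obtain ⟨w, hw, hvw⟩ := hv
  rw [SimpleGraph.edist_comm] at hvw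
  calc (G n).edist u v ≤ (G n).edist u w + (G n).edist w v := SimpleGraph.edist_triangle
    _ ≤ ((G n).edist u z + (G n).edist z w) + (G n).edist w v :=
        add_le_add_left SimpleGraph.edist_triangle _
    _ ≤ (12 + 7) + 12 := add_le_add (add_le_add huz (h.core z hz w hw)) hvw
    _ = 31 := by norm_num

/-- The core for a family of graphs. -/
theorem core_family (b c : ℝ) (hb0 : 0 < b) (hbc : b < c) (hc : c < 1 / 2) : ∃ n0 : ℕ, 1 ≤ n0 ∧
    ∀ V S : ℕ → Set ℕ, (∀ n, ∀ a ∈ V n, Even a ∧ a ≤ 2 * n) → (∀ n, ∀ x ∈ Finset.Icc 1 n, 2 * x ∈ V n) →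
    (∀ n m, m.Prime → Odd m → m < 2 * n → m ∈ S n) → (∀ n, ∀ m ∈ S n, m = 1 ∨ (m.Prime ∧ Odd m)) →
    (∀ n, (0 : ℕ) ∈ V n → ∀ m, n ≤ m → (0 : ℕ) ∈ V m) →
    ∀ N : ℕ, n0 ≤ N → ∀ n : ℕ, N ≤ n →
    ∃ K : Set (V n), Core V (fun n => halfGraph (V n) (S n)) b N n K ∧
      ((0 : ℕ) ∈ V n → ∀ u : V n, (u : ℕ) = 0 ∨ (∃ p : ℕ, p.Prime ∧ Odd p ∧ (u : ℕ) = 2 * p) →
        ∃ z ∈ K, (halfGraph (V n) (S n)).edist u z ≤ 2) := by
  classical
  obtain ⟨n0, h0⟩ := core_main b c hb0 hbc hc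
  obtain ⟨n1, hn11, hn1⟩ := thr_facts b c hb0 hbc (by linarith)
  refine ⟨2 * max n0 n1, by omega, fun V S hV hV2 hS hS' hV0 N hN n hn => ?_⟩
  obtain ⟨K, k1, k2, k3, k4, k5⟩ := h0 n (by omega) (V n) (S n) (hV n) (hV2 n) (hS n) (hS' n)
  refine ⟨K, ⟨k1, k2, k3, ?_⟩, k4⟩
  rintro ⟨u, hu⟩ hrich
  obtain ⟨⟨x, hx'⟩, hbn⟩ := hV n u hu
  have hux : u = 2 * x := by omega
  subst hux
  rcases hrich with ⟨m, hm0, hmn, hm, hd⟩ | ⟨hu0, hr⟩
  · have hbm : 2 * x ≤ 2 * m := (hV m _ hm).2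
    by_cases hx0 : x = 0
    · subst hx0
      obtain ⟨z, hz, hze⟩ := k4 hu ⟨_, hu⟩ (Or.inl rfl)
      exact ⟨z, hz, hze.trans (by norm_num)⟩
    · have h1 : (((halfGraph (V m) (S m)).neighborSet ⟨2 * x, hm⟩).ncard : ℝ) ≤ hdeg m x + 4 := by
        exact_mod_cast deg_le (hV m) (hS' m) x hm
      obtain ⟨t1, -, -⟩ := hn1 m (by omega)
      exact k5 _ ⟨x, m, rfl, by omega, by omega, by omega, hmn, by linarith⟩
  · have hu0' : N ≤ 2 * x := hu0
    obtain ⟨-, t2, -⟩ := hn1 x (by omega)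
    replace hr : ((2 * x : ℕ) : ℝ) * Real.exp (-(Real.log ((2 * x : ℕ) : ℝ)) ^ b) ≤ reps (2 * x) := hr
    have h1 : (reps (2 * x) : ℝ) ≤ 2 * (((Icc 1 (x - 1)).filter (fun Y => hadj x Y)).card : ℝ) + 3 := by
      exact_mod_cast reps_le x
    have h2 : (((Icc 1 (x - 1)).filter (fun Y => hadj x Y)).card : ℝ) ≤ hdeg x x := by
      have : ((Icc 1 (x - 1)).filter (fun Y => hadj x Y)).card ≤ hdeg x x := by
        unfold hdeg
        apply card_le_card
        apply filter_subset_filter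
        exact Icc_subset_Icc_right (Nat.sub_le _ _)
      exact_mod_cast this
    exact k5 _ ⟨x, x, rfl, by omega, le_rfl, by omega, by omega, by linarith⟩

/-- The fixed exceptional set. -/
theorem fixed_set (a b : ℝ) (ha : 0 < a) (hab : a < b) (hb : b < 1 / 2) (N : ℕ) :
    ∃ (E : Set ℕ) (x0 : ℕ),
      (∀ x : ℕ, x0 ≤ x → ((E ∩ Set.Icc 0 x).ncard : ℝ) ≤ x * Real.exp (-(Real.log x) ^ a)) ∧
      ∀ u : ℕ, Even u → u ∉ E → N ≤ u ∧ (u : ℝ) * Real.exp (-(Real.log u) ^ b) ≤ reps u := by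
  classical
  obtain ⟨n1, hn11, hn1⟩ := thr_facts ((a + b) / 2) b (by linarith) (by linarith) (by linarith)
  obtain ⟨F, x0, hF1, hF2⟩ := fixed a ((a + b) / 2) ha (by linarith) (by linarith) (max N n1)
  refine ⟨{u | Even u ∧ u / 2 ∈ F}, x0, fun x hx => ?_, fun u hu huE => ?_⟩
  · refine le_trans ?_ (hF1 x hx)
    have : ({u | Even u ∧ u / 2 ∈ F} ∩ Set.Icc 0 x).ncard ≤ (F ∩ Set.Icc 0 x).ncard := by
      apply Set.ncard_le_ncard_of_injOn (fun u => u / 2)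
      · rintro u ⟨⟨-, h2⟩, h3, h4⟩
        exact ⟨h2, Nat.zero_le _, (Nat.div_le_self _ _).trans h4⟩
      · rintro u ⟨⟨⟨k, hk⟩, -⟩, -⟩ v ⟨⟨⟨l, hl⟩, -⟩, -⟩ huv
        simp only at huv
        omega
    exact_mod_cast this
  · obtain ⟨k, hk⟩ := hu
    have hux : u = 2 * k := by omega
    subst hux
    have hkF : k ∉ F := fun h => huE ⟨even_two_mul k, by rwa [Nat.mul_div_cancel_left _ two_pos]⟩
    obtain ⟨h1, h2⟩ := hF2 k hkF
    obtain ⟨-, -, t3⟩ := hn1 k (by omega)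
    refine ⟨by omega, ?_⟩
    have h3 : (((Icc 1 (k - 1)).filter (fun Y => hadj k Y)).card : ℝ) ≤ reps (2 * k) := by
      exact_mod_cast le_reps k
    linarith

/-- Descent: under Goldbach's conjecture every vertex is connected to `2`, `4` or `6`. -/
theorem descent (hG : ∀ u : ℕ, Even u → 8 ≤ u → ∃ p q : ℕ, p.Prime ∧ q.Prime ∧ p ≠ q ∧ p + q = u)
    {V S : Set ℕ} {n : ℕ} (hV : ∀ a ∈ V, Even a ∧ a ≤ 2 * n) (hV2 : ∀ x ∈ Finset.Icc 1 n, 2 * x ∈ V)
    (hS : ∀ m, m.Prime → Odd m → m < 2 * n → m ∈ S) : ∀ u : ℕ, ∀ hu : u ∈ V, 0 < u →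
    ∃ w, ∃ hw : w ∈ V, (w = 2 ∨ w = 4 ∨ w = 6) ∧ (halfGraph V S).edist ⟨u, hu⟩ ⟨w, hw⟩ ≤ (u : ℕ∞) := by
  intro u
  induction u using Nat.strong_induction_on with
  | _ u ih =>
    intro hu hu0
    obtain ⟨he, hun⟩ := hV u hu
    by_cases h8 : 8 ≤ u
    · obtain ⟨p, q, hp, hq, hpq, hsum⟩ := hG u he h8
      wlog hlt : p < q generalizing p q
      · exact this q p hq hp hpq.symm (by omega) (by omega)
      have hp2 : p ≠ 2 := by
        rintro rfl
        have h1 : Even q := by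
          obtain ⟨k, hk⟩ := he
          exact ⟨k - 1, by omega⟩
        have := (Nat.Prime.even_iff hq).1 h1
        omega
      have hq2 : q ≠ 2 := by
        have := hp.two_le
        omega
      have hpo := hp.odd_of_ne_two hp2
      have hqo := hq.odd_of_ne_two hq2
      obtain ⟨k, hk⟩ := hpo
      obtain ⟨l, hl⟩ := hqo
      have hpp := hp.pos
      have hvmem : q - p ∈ V := by
        have : q - p = 2 * (l - k) := by omega
        rw [this]
        exact hV2 _ (mem_Icc.2 ⟨by omega, by omega⟩)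
      obtain ⟨w, hw, hw1, hw2⟩ := ih (q - p) (by omega) hvmem (by omega)
      refine ⟨w, hw, hw1, ?_⟩
      have hadj : (halfGraph V S).Adj ⟨u, hu⟩ ⟨q - p, hvmem⟩ := by
        rw [halfGraph_adj_iff (x := k + l + 1) (y := l - k) (by simp only; omega) (by simp only; omega)]
        refine ⟨by omega, ?_, ?_⟩
        · have : k + l + 1 + (l - k) = q := by omega
          rw [this]
          exact hS q hq ⟨l, hl⟩ (by omega)
        · have : (((k + l + 1 : ℕ) : ℤ) - ((l - k : ℕ) : ℤ)).natAbs = p := by omega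
          rw [this]
          exact hS p hp ⟨k, hk⟩ (by omega)
      have h1 : (halfGraph V S).edist ⟨u, hu⟩ ⟨q - p, hvmem⟩ ≤ 1 := by
        refine (SimpleGraph.edist_le (.cons hadj .nil)).trans ?_
        norm_num
      calc (halfGraph V S).edist ⟨u, hu⟩ ⟨w, hw⟩ ≤ (halfGraph V S).edist ⟨u, hu⟩ ⟨q - p, hvmem⟩ +
            (halfGraph V S).edist ⟨q - p, hvmem⟩ ⟨w, hw⟩ := SimpleGraph.edist_triangle
        _ ≤ 1 + ((q - p : ℕ) : ℕ∞) := add_le_add h1 hw2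
        _ ≤ (u : ℕ∞) := by
            have h2 : 1 + (q - p) ≤ u := by omega
            exact_mod_cast h2
    · refine ⟨u, hu, ?_, by rw [SimpleGraph.edist_self]; exact zero_le⟩
      obtain ⟨k, hk⟩ := he
      omega

end Pool.Agent.Lib.H18P
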